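import Pool.Agent.K1H82.KT.Defs

/-!
# The twisted tori
-/

set_option autoImplicit false
set_option linter.unusedSectionVars false

open MvPolynomial Pool.Agent.TH954.X Pool.Agent.K1H82.KM
open Pool.Agent.K1H82.KQ (PtB GalK cjg OnX sg)
open Pool.Agent.K1H82.KA (PtsB GActP ln ln_mul ln_one apP apP_mul apP_one trP_mul trP_one sgP
  mapV_up cenP ln_cen RP)
open Pool.Agent.K1H82.KR (Off)
open Pool.Agent.K1H82.KB (GalSt sg_RR)

namespace Pool.Agent.K1H82.KT

section mon

variable {s : ℕ} {F : Type} [Field F]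

lemma mon_one_mat (u : Tp s F) : mon 1 u = u := by
  funext i
  unfold mon
  rw [Finset.prod_eq_single i]
  · rw [Matrix.one_apply_eq, zpow_one]
  · intro j _ hj
    rw [Matrix.one_apply_ne hj.symm, zpow_zero]
  · intro h
    exact absurd (Finset.mem_univ i) h

lemma zsum {α H : Type} [CommGroup H] (t : Finset α) (x : H) (f : α → ℤ) :
    x ^ (∑ a ∈ t, f a) = ∏ a ∈ t, x ^ f a := by
  classical
  induction t using Finset.induction_on with
  | empty => rw [Finset.sum_empty, Finset.prod_empty, zpow_zero]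
  | insert a t ha ih => rw [Finset.sum_insert ha, Finset.prod_insert ha, zpow_add, ih]

lemma mon_mul_mat (M M' : Matrix (Fin s) (Fin s) ℤ) (u : Tp s F) :
    mon (M * M') u = mon M (mon M' u) := by
  funext i
  change ∏ k, u k ^ (M * M') i k = ∏ j, (∏ k, u k ^ M' j k) ^ M i j
  simp_rw [← Finset.prod_zpow]
  rw [Finset.prod_comm]
  refine Finset.prod_congr rfl (fun k _ => ?_)
  rw [Matrix.mul_apply, zsum]
  refine Finset.prod_congr rfl (fun j _ => ?_)
  rw [mul_comm, zpow_mul]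

lemma mon_mul (M : Matrix (Fin s) (Fin s) ℤ) (u v : Tp s F) :
    mon M (u * v) = mon M u * mon M v := by
  funext i
  change ∏ j, (u j * v j) ^ M i j = (∏ j, u j ^ M i j) * ∏ j, v j ^ M i j
  rw [← Finset.prod_mul_distrib]
  exact Finset.prod_congr rfl (fun j _ => mul_zpow _ _ _)

lemma mon_one (M : Matrix (Fin s) (Fin s) ℤ) : mon M (1 : Tp s F) = 1 := by
  funext i
  change ∏ j, (1 : Fˣ) ^ M i j = 1
  simp

lemma mon_prod {α : Type} (t : Finset α) (M : Matrix (Fin s) (Fin s) ℤ) (f : α → Tp s F) :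
    mon M (∏ a ∈ t, f a) = ∏ a ∈ t, mon M (f a) := by
  classical
  induction t using Finset.induction_on with
  | empty => rw [Finset.prod_empty, Finset.prod_empty, mon_one]
  | insert a t ha ih => rw [Finset.prod_insert ha, Finset.prod_insert ha, mon_mul, ih]

/-- the image of a point of the torus under a homomorphism of fields -/
def mp {F' : Type} [Field F'] (f : F →* F') (u : Tp s F) : Tp s F' := fun i => Units.map f (u i)

lemma mp_mon {F' : Type} [Field F'] (f : F →* F') (M : Matrix (Fin s) (Fin s) ℤ) (u : Tp s F) :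
    mp f (mon M u) = mon M (mp f u) := by
  funext i
  change Units.map f (∏ j, u j ^ M i j) = ∏ j, (Units.map f (u j)) ^ M i j
  rw [map_prod]
  exact Finset.prod_congr rfl (fun j _ => map_zpow _ _ _)

lemma mp_mul {F' : Type} [Field F'] (f : F →* F') (u v : Tp s F) :
    mp f (u * v) = mp f u * mp f v := by
  funext i
  exact map_mul (Units.map f) (u i) (v i)

end mon

section moves

variable {K : Type} [Field K] {n r s N : ℕ} {T : Torus K s} {A : Fin r → AbVar K n}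
  {D : Tors T A} {G : Type} [Group G]

lemma cjT_eq (σ : GalK K) (u : TpB K s) :
    cjT T σ u = mon (T.ρ σ) (mp (σ : AlgebraicClosure K →* AlgebraicClosure K) u) := rfl

lemma mp_comp (σ τ : GalK K) (u : TpB K s) :
    mp ((σ * τ : GalK K) : AlgebraicClosure K →* AlgebraicClosure K) u =
      mp (σ : AlgebraicClosure K →* AlgebraicClosure K)
        (mp (τ : AlgebraicClosure K →* AlgebraicClosure K) u) := by
  funext i
  exact Units.ext rfl

lemma cjT_comp (σ τ : GalK K) (u : TpB K s) : cjT T (σ * τ) u = cjT T σ (cjT T τ u) := by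
  rw [cjT_eq, cjT_eq, cjT_eq, T.ρ_mul, mon_mul_mat, mp_mon, mp_comp]

lemma cjT_mul (σ : GalK K) (u v : TpB K s) : cjT T σ (u * v) = cjT T σ u * cjT T σ v := by
  rw [cjT_eq, cjT_eq, cjT_eq, mp_mul, mon_mul]

lemma cjT_mon (S : GActT D G) (σ : GalK K) (g : G) (u : TpB K s) :
    cjT T σ (mon (S.linT g) u) = mon (S.linT (S.galG σ g)) (cjT T σ u) := by
  rw [cjT_eq, cjT_eq, mp_mon, ← mon_mul_mat, ← mon_mul_mat, S.gal_linT]

lemma Moves.comp {S : GActT D G} {g h : G} {u u' u'' : TpB K s} {P P' P'' : PtsB A}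
    (h1 : Moves S g u P u' P') (h2 : Moves S h u' P' u'' P'') : Moves S (h * g) u P u'' P'' := by
  refine ⟨?_, fun b => ?_⟩
  · rw [h2.1, h1.1, S.linT_mul, mon_mul_mat, S.trT_mul, mon_mul, mul_assoc]
  · rw [h2.2 b, h1.2 b, S.act.lin_mul, S.act.tr_mul, S.act.lin_add, add_assoc]

lemma moves_one (S : GActT D G) (u : TpB K s) (P : PtsB A) : Moves S 1 u P u P := by
  have h1 : S.trT 1 = 1 := by
    have h := S.trT_mul 1 1
    rw [mul_one, S.linT_one, mon_one_mat] at h
    exact left_eq_mul.1 h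
  refine ⟨?_, fun b => ?_⟩
  · rw [S.linT_one, mon_one_mat, h1, mul_one]
  · rw [S.act.lin_one, trP_one, add_zero]

lemma Moves.inv {S : GActT D G} {g : G} {u u' : TpB K s} {P P' : PtsB A}
    (h1 : Moves S g u P u' P') : Moves S g⁻¹ u' P' u P := by
  have h2 : ∀ g : G, ∀ (u u' : TpB K s) (P P' : PtsB A), Moves S g u P u' P' →
      ∀ (v : TpB K s) (Q : PtsB A), Moves S g u P v Q → v = u' ∧ Q = P' := by
    intro g u u' P P' h v Q h'
    exact ⟨h'.1.trans h.1.symm, funext fun b => (h'.2 b).trans (h.2 b).symm⟩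
  -- the image of `(u', P')` under `g⁻¹`
  set v : TpB K s := mon (S.linT g⁻¹) u' * S.trT g⁻¹ with hv
  set Q : PtsB A := fun b => S.act.lin g⁻¹ b (P' b) + S.act.tr g⁻¹ b with hQ
  have h3 : Moves S g⁻¹ u' P' v Q := ⟨rfl, fun b => rfl⟩
  have h4 := h1.comp h3
  rw [inv_mul_cancel] at h4
  obtain ⟨h5, h6⟩ := h2 1 u u P P (moves_one S u P) v Q h4
  rw [h5, h6] at h3
  exact h3

lemma cjg_add (b : Fin r) (σ : GalK K) (Q Q' : PtB (A b)) :
    cjg (A b) σ (Q + Q') = cjg (A b) σ Q + cjg (A b) σ Q' :=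
  map_add (mapH (A b) σ.toAlgHom) _ _

lemma Moves.conj {S : GActT D G} {g : G} {u u' : TpB K s} {P P' : PtsB A}
    (h1 : Moves S g u P u' P') (σ : GalK K) : Moves S (S.galG σ g) (twT D σ u) (twA D σ P)
      (twT D σ u') (twA D σ P') := by
  refine ⟨?_, fun b => ?_⟩
  · unfold twT
    rw [h1.1, cjT_mul, cjT_mon, mon_mul, mul_assoc, S.gal_trT, mul_assoc]
  · change cjg (A b) σ (P' b) + D.c σ b = S.act.lin (S.galG σ g) b (cjg (A b) σ (P b) + D.c σ b) +
      S.act.tr (S.galG σ g) b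
    rw [S.act.lin_add, add_assoc, ← S.gal_tr, ← S.gal_lin, h1.2 b, cjg_add, add_assoc]

lemma twT_comp (σ τ : GalK K) (u : TpB K s) : twT D (σ * τ) u = twT D σ (twT D τ u) := by
  unfold twT
  rw [cjT_comp, D.a_mul, cjT_mul, mul_assoc]

lemma twA_comp (σ τ : GalK K) (P : PtsB A) : twA D (σ * τ) P = twA D σ (twA D τ P) := by
  funext b
  change cjg (A b) (σ * τ) (P b) + D.c (σ * τ) b = cjg (A b) σ (cjg (A b) τ (P b) + D.c τ b) +
    D.c σ b
  rw [cjg_add, D.c_mul, add_assoc]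
  rfl

lemma a_one (D : Tors T A) : D.a 1 = 1 := by
  obtain ⟨F, -, h⟩ := D.split
  exact (h 1 (fun x _ => rfl)).1

lemma c_one (D : Tors T A) (b : Fin r) : D.c 1 b = 0 := by
  obtain ⟨F, -, h⟩ := D.split
  exact (h 1 (fun x _ => rfl)).2 b

lemma linT_inv (S : GActT D G) (g : G) : S.linT g⁻¹ * S.linT g = 1 := by
  rw [← S.linT_mul, inv_mul_cancel, S.linT_one]

lemma linT_inv' (S : GActT D G) (g : G) : S.linT g * S.linT g⁻¹ = 1 := by
  rw [← S.linT_mul, mul_inv_cancel, S.linT_one]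

end moves

section stab

variable {K : Type} [Field K] {n r s N : ℕ} {T : Torus K s} {A : Fin r → AbVar K n}
  {D : Tors T A} {G : Type} [Group G] {X : RMapT D N} {S : GActT D G} (hX : IsQuotT X S) {u : TpB K s} {P : PtsB A}
  {y : Fin N → K} (hy : ImgT X.Fam u P (up y)) (ho : Off X.eqW (up y))

include hX hy ho

lemma conj_ex (φ : GalK K) :
    ∃ g, Moves S g u P (twT D φ u) (twA D φ P) := by
  have h1 := X.gal φ u P _ hy
  have h2 : (fun c => φ (up y c)) = up y := by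
    funext c
    change φ (algebraMap K (AlgebraicClosure K) (y c)) = _
    rw [AlgEquiv.commutes]
    rfl
  rw [h2] at h1
  exact ((hX u P _ hy ho).1 _ _).1 h1

lemma linT_unique {g h : G} {u' : TpB K s} {P' : PtsB A} (h1 : Moves S g u P u' P')
    (h2 : Moves S h u P u' P') : S.linT g = S.linT h := by
  have h3 := (hX u P _ hy ho).2 _ (h2.comp h1.inv)
  rw [S.linT_mul] at h3
  have h4 : S.linT g * (S.linT g⁻¹ * S.linT h) = S.linT g * 1 := by rw [h3]
  rw [← mul_assoc, linT_inv', one_mul, mul_one] at h4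
  exact h4.symm

/-- the matrix by which `φ` acts on the twisted torus -/
noncomputable def Mf (φ : GalK K) : Matrix (Fin s) (Fin s) ℤ :=
  S.linT (conj_ex hX hy ho φ).choose⁻¹ * T.ρ φ

lemma Mf_eq (φ : GalK K) {g : G} (hg : Moves S g u P (twT D φ u) (twA D φ P)) :
    Mf hX hy ho φ = S.linT g⁻¹ * T.ρ φ := by
  unfold Mf
  have h1 := linT_unique hX hy ho (conj_ex hX hy ho φ).choose_spec hg
  congr 1
  have h2 := linT_inv S (conj_ex hX hy ho φ).choose
  have h3 := linT_inv' S g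
  calc S.linT (conj_ex hX hy ho φ).choose⁻¹
      = S.linT (conj_ex hX hy ho φ).choose⁻¹ * (S.linT g * S.linT g⁻¹) := by rw [h3, mul_one]
    _ = (S.linT (conj_ex hX hy ho φ).choose⁻¹ * S.linT (conj_ex hX hy ho φ).choose) *
        S.linT g⁻¹ := by rw [← h1, mul_assoc]
    _ = S.linT g⁻¹ := by rw [h2, one_mul]

lemma Mf_mul (φ ψ : GalK K) : Mf hX hy ho (φ * ψ) = Mf hX hy ho φ * Mf hX hy ho ψ := by
  obtain ⟨g, hg⟩ := conj_ex hX hy ho φ
  obtain ⟨h, hh⟩ := conj_ex hX hy ho ψ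
  have h1 := hg.comp (hh.conj φ)
  have h2 : Moves S (S.galG φ h * g) u P (twT D (φ * ψ) u) (twA D (φ * ψ) P) := by
    rw [twT_comp, twA_comp]
    exact h1
  rw [Mf_eq hX hy ho φ hg, Mf_eq hX hy ho ψ hh, Mf_eq hX hy ho (φ * ψ) h2, mul_inv_rev,
    S.linT_mul, T.ρ_mul]
  have h3 : S.linT (S.galG φ h)⁻¹ * T.ρ φ = T.ρ φ * S.linT h⁻¹ := by
    have h4 := S.gal_linT φ h
    calc S.linT (S.galG φ h)⁻¹ * T.ρ φ
        = S.linT (S.galG φ h)⁻¹ * (T.ρ φ * S.linT h) * S.linT h⁻¹ := by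
          rw [mul_assoc (S.linT (S.galG φ h)⁻¹), mul_assoc (T.ρ φ), linT_inv', mul_one]
      _ = (S.linT (S.galG φ h)⁻¹ * S.linT (S.galG φ h)) * T.ρ φ * S.linT h⁻¹ := by
          rw [← h4, ← mul_assoc]
      _ = T.ρ φ * S.linT h⁻¹ := by rw [linT_inv, one_mul]
  calc S.linT g⁻¹ * S.linT (S.galG φ h)⁻¹ * (T.ρ φ * T.ρ ψ)
      = S.linT g⁻¹ * (S.linT (S.galG φ h)⁻¹ * T.ρ φ) * T.ρ ψ := by simp only [mul_assoc]
    _ = S.linT g⁻¹ * T.ρ φ * (S.linT h⁻¹ * T.ρ ψ) := by rw [h3]; simp only [mul_assoc]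

lemma Mf_one : Mf hX hy ho 1 = 1 := by
  have h1 : Moves S 1 u P (twT D 1 u) (twA D 1 P) := by
    have h2 : twT D 1 u = u := by
      unfold twT
      rw [cjT_eq, T.ρ_one, mon_one_mat, a_one, mul_one]
      funext i
      exact Units.ext rfl
    have h3 : twA D 1 P = P := by
      funext b
      change cjg (A b) 1 (P b) + D.c 1 b = P b
      rw [c_one, add_zero]
      rfl
    rw [h2, h3]
    exact moves_one S u P
  rw [Mf_eq hX hy ho 1 h1, inv_one, S.linT_one, T.ρ_one, one_mul]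

end stab

end Pool.Agent.K1H82.KT
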