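import Pool.Agent.K1H82.KT.Nrm

/-!
# The center of the affine action of the group and of the Galois group
-/

set_option autoImplicit false
set_option linter.unusedSectionVars false

open MvPolynomial Pool.Agent.TH954.X Pool.Agent.K1H82.KM
open Pool.Agent.K1H82.KQ (PtB GalK cjg OnX sg)
open Pool.Agent.K1H82.KA (PtsB GActP ln ln_mul ln_one apP apP_mul apP_one trP_mul trP_one sgP
  mapV_up cenP ln_cen RP)
open Pool.Agent.K1H82.KR (Off)

namespace Pool.Agent.K1H82.KT

variable {K : Type} [Field K] [CharZero K] {n r s N : ℕ} {T : Torus K s} {A : Fin r → AbVar K n}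
  {D : Tors T A} {G : Type} [Group G]

/-- a finite normal extension over which the torsors split -/
noncomputable def F0 (D : Tors T A) : IntermediateField K (AlgebraicClosure K) :=
  IntermediateField.normalClosure K D.split.choose (AlgebraicClosure K)

instance (D : Tors T A) : FiniteDimensional K (F0 D) := by
  have := D.split.choose_spec.1
  unfold F0
  infer_instance

instance (D : Tors T A) : Normal K (F0 D) := by
  unfold F0
  infer_instance

lemma F0_split (D : Tors T A) (σ : GalK K) (h : ∀ x ∈ F0 D, σ x = x) (b : Fin r) : D.c σ b = 0 :=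
  (D.split.choose_spec.2 σ (fun x hx => h x
    (IntermediateField.le_normalClosure D.split.choose hx))).2 b

lemma c_congr {φ ψ : GalK K} (h : rsF (F0 D) φ = rsF (F0 D) ψ) (b : Fin r) :
    D.c φ b = D.c ψ b := by
  have h1 : ∀ x ∈ F0 D, φ x = ψ x := by
    intro x hx
    have := congrArg (fun τ : F0 D ≃ₐ[K] F0 D => ((τ ⟨x, hx⟩ : F0 D) : AlgebraicClosure K)) h
    rwa [rsF_apply, rsF_apply] at this
  have h2 := F0_split D (ψ⁻¹ * φ) (fun x hx => by
    change ψ⁻¹ (φ x) = x
    rw [h1 x hx]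
    exact AlgEquiv.symm_apply_apply ψ x) b
  have h4 : ψ * (ψ⁻¹ * φ) = φ := mul_inv_cancel_left ψ φ
  rw [← h4, D.c_mul, h2]
  have : cjg (A b) ψ 0 = 0 := map_zero (mapH (A b) ψ.toAlgHom)
  rw [this, zero_add]

/-- the cocycle, as a function on the finite Galois group -/
noncomputable def cH (D : Tors T A) (τ : F0 D ≃ₐ[K] F0 D) (b : Fin r) :
    (A b).Pt (AlgebraicClosure K) := D.c (lf (F0 D) τ) b

lemma cH_rs (φ : GalK K) (b : Fin r) : cH D (rsF (F0 D) φ) b = D.c φ b :=
  c_congr (rsF_lf (F0 D) _) b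

variable [Fintype G] (S : GActT D G)

/-- the sum of the translations -/
noncomputable def Zc (b : Fin r) : (A b).Pt (AlgebraicClosure K) :=
  ∑ τ : F0 D ≃ₐ[K] F0 D, ∑ g : G, (ln S.act g b (cH D τ b) + S.act.tr g b)

/-- the order of the group -/
noncomputable def nn : ℕ := Fintype.card (F0 D ≃ₐ[K] F0 D) * Fintype.card G

lemma nn_pos : 0 < nn (D := D) (G := G) := Nat.mul_pos Fintype.card_pos Fintype.card_pos

lemma ln_Zc (h : G) (b : Fin r) :
    ln S.act h b (Zc S b) = Zc S b - nn (D := D) (G := G) • S.act.tr h b := by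
  unfold Zc nn
  rw [map_sum]
  have h1 : ∀ τ : F0 D ≃ₐ[K] F0 D, ln S.act h b (∑ g : G, (ln S.act g b (cH D τ b) +
      S.act.tr g b)) = (∑ g : G, (ln S.act g b (cH D τ b) + S.act.tr g b)) -
        Fintype.card G • S.act.tr h b := by
    intro τ
    rw [map_sum]
    have h2 : ∀ g, ln S.act h b (ln S.act g b (cH D τ b) + S.act.tr g b) =
        (ln S.act (h * g) b (cH D τ b) + S.act.tr (h * g) b) - S.act.tr h b := by
      intro g
      rw [trP_mul, ln_mul, map_add]
      abel
    simp_rw [h2]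
    rw [Finset.sum_sub_distrib, Finset.sum_const, Finset.card_univ]
    congr 1
    exact Fintype.sum_equiv (Equiv.mulLeft h) _ _ (fun _ => rfl)
  simp_rw [h1]
  rw [Finset.sum_sub_distrib, Finset.sum_const, Finset.card_univ, ← mul_smul]

lemma sg_ln (φ : GalK K) (g : G) (b : Fin r) (Q : (A b).Pt (AlgebraicClosure K)) :
    sg (A b) φ (ln S.act g b Q) = ln S.act (S.galG φ g) b (sg (A b) φ Q) := S.gal_lin φ g b Q

lemma sg_tr (φ : GalK K) (g : G) (b : Fin r) :
    sg (A b) φ (S.act.tr g b) = ln S.act (S.galG φ g) b (D.c φ b) + S.act.tr (S.galG φ g) b -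
      D.c φ b := by
  have h : sg (A b) φ (S.act.tr g b) + D.c φ b =
      ln S.act (S.galG φ g) b (D.c φ b) + S.act.tr (S.galG φ g) b := S.gal_tr φ g b
  rw [← h, add_sub_cancel_right]

lemma sg_cH (φ : GalK K) (τ : F0 D ≃ₐ[K] F0 D) (b : Fin r) :
    sg (A b) φ (cH D τ b) = cH D (rsF (F0 D) φ * τ) b - D.c φ b := by
  have h : D.c (φ * lf (F0 D) τ) b = sg (A b) φ (cH D τ b) + D.c φ b := D.c_mul φ _ b
  have h2 : rsF (F0 D) φ * τ = rsF (F0 D) (φ * lf (F0 D) τ) := by rw [rsF_mul, rsF_lf]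
  rw [h2, cH_rs, h, add_sub_cancel_right]

lemma sg_Zc (φ : GalK K) (b : Fin r) :
    sg (A b) φ (Zc S b) = Zc S b - nn (D := D) (G := G) • D.c φ b := by
  unfold Zc nn
  rw [map_sum]
  have h1 : ∀ τ : F0 D ≃ₐ[K] F0 D, sg (A b) φ (∑ g : G, (ln S.act g b (cH D τ b) +
      S.act.tr g b)) = (∑ g : G, (ln S.act g b (cH D (rsF (F0 D) φ * τ) b) + S.act.tr g b)) -
        Fintype.card G • D.c φ b := by
    intro τ
    rw [map_sum]
    have h2 : ∀ g, sg (A b) φ (ln S.act g b (cH D τ b) + S.act.tr g b) =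
        (ln S.act (S.galG φ g) b (cH D (rsF (F0 D) φ * τ) b) + S.act.tr (S.galG φ g) b) -
          D.c φ b := by
      intro g
      rw [map_add, sg_ln, sg_tr, sg_cH, map_sub]
      abel
    simp_rw [h2]
    rw [Finset.sum_sub_distrib, Finset.sum_const, Finset.card_univ]
    congr 1
    exact Fintype.sum_equiv (S.galG φ).toEquiv _ _ (fun _ => rfl)
  simp_rw [h1]
  rw [Finset.sum_sub_distrib, Finset.sum_const, Finset.card_univ, ← mul_smul]
  congr 1
  exact Fintype.sum_equiv (Equiv.mulLeft (rsF (F0 D) φ)) _ _ (fun _ => rfl)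

/-- the twisted multiples -/
noncomputable def RT (P : Pts A (AlgebraicClosure K)) (b : Fin r) :
    (A b).Pt (AlgebraicClosure K) := nn (D := D) (G := G) • P b - Zc S b

lemma sg_RT {P : Pts A (AlgebraicClosure K)} {φ : GalK K} {g : G}
    (hg : ∀ b, sg (A b) φ (P b) + D.c φ b = ln S.act g b (P b) + S.act.tr g b) (b : Fin r) :
    sg (A b) φ (RT S P b) = ln S.act g b (RT S P b) := by
  unfold RT
  rw [map_sub, map_nsmul, sg_Zc, map_sub, map_nsmul, ln_Zc]
  have h1 : sg (A b) φ (P b) = ln S.act g b (P b) + S.act.tr g b - D.c φ b := by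
    rw [← hg b, add_sub_cancel_right]
  rw [h1, smul_sub, smul_add]
  abel

end Pool.Agent.K1H82.KT
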