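import Mathlib

/-!
# Two statements: norms are Zariski dense in tori; small elements of number fields
-/

set_option autoImplicit false

open MvPolynomial

namespace Pool.Agent.K1H82.KT

/-- Zariski density of norms. `F / K` is a finite extension with basis `ω`, `Ω` a field which
contains `F`; for every automorphism `τ` of `F / K` an integral matrix `M τ` is given, with `M 1 = 1`.
For `a ∈ F ^ s` consider `N(a)_i = ∏_τ ∏_j τ(a_j) ^ (M τ i j)`. If the polynomial `h` vanishes at all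
`u N(a)` for `a_j = 1 + ∑_k x_jk ω_k ≠ 0` with all `x_jk` in the infinite set `B ⊆ K`, then it
vanishes at all `u w`, `w_j ≠ 0`. -/
def S_DEN : Prop :=
  ∀ (K F Ω : Type) [Field K] [Field F] [Field Ω] [Algebra K F] [FiniteDimensional K F]
    [Algebra K Ω] [Algebra F Ω] [IsScalarTower K F Ω] (s m : ℕ) (ω : Module.Basis (Fin m) K F)
    (M : (F ≃ₐ[K] F) → Matrix (Fin s) (Fin s) ℤ), M 1 = 1 →
    ∀ (B : Set K), B.Infinite → ∀ (u : Fin s → Ω) (h : MvPolynomial (Fin s) Ω),
    (∀ x : Fin s → Fin m → K, (∀ j k, x j k ∈ B) → (∀ j, 1 + ∑ k, x j k • ω k ≠ 0) →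
      eval (fun i => u i * ∏ τ : F ≃ₐ[K] F, ∏ j,
        (algebraMap F Ω (τ (1 + ∑ k, x j k • ω k))) ^ (M τ i j)) h = 0) →
    ∀ w : Fin s → Ω, (∀ j, w j ≠ 0) → eval (fun i => u i * w i) h = 0

/-- Elements of a number field which are small in finitely many completions. -/
def S_SML : Prop :=
  ∀ (K : Type) [Field K] [NumberField K] (ι : Type) [Finite ι] (L : ι → Type)
    [∀ i, NontriviallyNormedField (L i)] (σ : ∀ i, K →+* L i), (∀ i, DenseRange (σ i)) →
    ∀ ε : ℝ, 0 < ε → ∃ z : K, z ≠ 0 ∧ ∀ i, ‖σ i z‖ < ε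

end Pool.Agent.K1H82.KT
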