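import Pool.Agent.K1H82.KS.Adl
import Pool.Agent.K1H82.KT.Stm

/-!
# Quotients of products of a torus and simple abelian varieties: definitions
-/

set_option autoImplicit false

open MvPolynomial Pool.Agent.TH954.X Pool.Agent.K1H82.KM
open Pool.Agent.K1H82.KQ (PtB GalK cjg OnX sg)
open Pool.Agent.K1H82.KA (PtsB GActP ln ln_mul ln_one apP apP_mul apP_one trP_mul trP_one sgP)
open Pool.Agent.K1H82.KR (Off)

namespace Pool.Agent.K1H82.KT

/-- the points over `F` of the split torus of dimension `s` -/
abbrev Tp (s : ℕ) (F : Type) [Field F] : Type := Fin s → Fˣ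

/-- the monomial map given by an integral matrix -/
def mon {s : ℕ} {F : Type} [Field F] (M : Matrix (Fin s) (Fin s) ℤ) (u : Tp s F) : Tp s F :=
  fun i => ∏ j, u j ^ M i j

/-- A torus over `K` of dimension `s`: the action of the Galois group on its points over the
algebraic closure is `σ * u = mon (ρ σ) (σ u)`, with a homomorphism `ρ` which is trivial on the
Galois group of a finite extension. -/
structure Torus (K : Type) [Field K] (s : ℕ) where
  ρ : GalK K → Matrix (Fin s) (Fin s) ℤ
  ρ_one : ρ 1 = 1
  ρ_mul : ∀ σ τ, ρ (σ * τ) = ρ σ * ρ τ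
  split : ∃ F : IntermediateField K (AlgebraicClosure K), FiniteDimensional K F ∧
    ∀ σ : GalK K, (∀ x ∈ F, σ x = x) → ρ σ = 1

/-- the points of the torus over the algebraic closure -/
abbrev TpB (K : Type) [Field K] (s : ℕ) : Type := Tp s (AlgebraicClosure K)

/-- the conjugate of a point of the torus -/
noncomputable def cjT {K : Type} [Field K] {s : ℕ} (T : Torus K s) (σ : GalK K) (u : TpB K s) :
    TpB K s :=
  mon (T.ρ σ) (fun i => Units.map (σ : AlgebraicClosure K →* AlgebraicClosure K) (u i))

/-- A torsor of the torus and torsors of the abelian varieties, with a base point over the algebraic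
closure; the cocycles `a` and `c` give the conjugates of the base points, and are trivial on the
Galois group of a finite extension. -/
structure Tors {K : Type} [Field K] {n r s : ℕ} (T : Torus K s) (A : Fin r → AbVar K n) where
  a : GalK K → TpB K s
  a_mul : ∀ σ τ, a (σ * τ) = cjT T σ (a τ) * a σ
  c : GalK K → PtsB A
  c_mul : ∀ σ τ b, c (σ * τ) b = cjg (A b) σ (c τ b) + c σ b
  split : ∃ F : IntermediateField K (AlgebraicClosure K), FiniteDimensional K F ∧
    ∀ σ : GalK K, (∀ x ∈ F, σ x = x) → a σ = 1 ∧ ∀ b, c σ b = 0

/-- the conjugate of a point of the torsor of the torus -/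
noncomputable def twT {K : Type} [Field K] {n r s : ℕ} {T : Torus K s} {A : Fin r → AbVar K n}
    (D : Tors T A) (σ : GalK K) (u : TpB K s) : TpB K s := cjT T σ u * D.a σ

/-- the conjugate of a point of the torsors of the abelian varieties -/
noncomputable def twA {K : Type} [Field K] {n r s : ℕ} {T : Torus K s} {A : Fin r → AbVar K n}
    (D : Tors T A) (σ : GalK K) (P : PtsB A) : PtsB A := fun b => cjg (A b) σ (P b) + D.c σ b

/-- The group `G` acts, over the algebraic closure, on the torsor of the torus by the maps
`u ↦ mon (M_g) u · t_g`, with an integral matrix `M_g` and a point `t_g` of the torus, and on each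
of the torsors of the abelian varieties through maps `P ↦ α_g (P) + t'_g`; the Galois group acts
on `G`, and the action of `G` is compatible with it. -/
structure GActT {K : Type} [Field K] {n r s : ℕ} {T : Torus K s} {A : Fin r → AbVar K n}
    (D : Tors T A) (G : Type) [Group G] where
  act : GActP A G
  linT : G → Matrix (Fin s) (Fin s) ℤ
  linT_one : linT 1 = 1
  linT_mul : ∀ g h, linT (g * h) = linT g * linT h
  trT : G → TpB K s
  trT_mul : ∀ g h, trT (g * h) = mon (linT g) (trT h) * trT g
  galG : GalK K → MulAut G
  gal_linT : ∀ σ g, linT (galG σ g) * T.ρ σ = T.ρ σ * linT g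
  gal_trT : ∀ σ g, cjT T σ (trT g) * D.a σ = mon (linT (galG σ g)) (D.a σ) * trT (galG σ g)
  gal_lin : ∀ σ g b P, cjg (A b) σ (act.lin g b P) = act.lin (galG σ g) b (cjg (A b) σ P)
  gal_tr : ∀ σ g b, cjg (A b) σ (act.tr g b) + D.c σ b =
    act.lin (galG σ g) b (D.c σ b) + act.tr (galG σ g) b

/-- the homogeneous coordinates `(1, u, 0, …, 0)` -/
def tv {F : Type} [Field F] (n : ℕ) (u : F) : Fin n → F :=
  fun c => if c.1 = 0 then 1 else if c.1 = 1 then u else 0

/-- the homogeneous coordinates of a point of the product of the torus and the abelian varieties -/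
def crT {K : Type} [Field K] {n r s : ℕ} {A : Fin r → AbVar K n} {F : Type} [Field F] [Algebra K F]
    (u : Fin s → F) (P : Pts A F) : Fin s ⊕ Fin r → Fin n → F :=
  Sum.elim (fun i => tv n (u i)) (fun b => (P b).1)

/-- the tuples of forms in the finite set `Fam` are not all zero at `u`, and their values at `u` are
multiples of `x` -/
def ValT {K : Type} [Field K] {ι : Type} {n N : ℕ}
    (Fam : Finset (Fin N → MvPolynomial (ι × Fin n) K))
    {F : Type} [Field F] [Algebra K F] (u : ι → Fin n → F) (x : Fin N → F) : Prop :=
  (∀ C ∈ Fam, ∃ s : F, (fun c => ev (C c) u) = s • x) ∧ ∃ C ∈ Fam, ∃ c, ev (C c) u ≠ 0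

/-- some form in the finite set `Fam` does not vanish at `u` -/
def NV {K : Type} [Field K] {ι : Type} {n N : ℕ}
    (Fam : Finset (Fin N → MvPolynomial (ι × Fin n) K))
    {F : Type} [Field F] [Algebra K F] (u : ι → Fin n → F) : Prop :=
  ∃ C ∈ Fam, ∃ c, ev (C c) u ≠ 0

/-- the finite sets of tuples of forms with coefficients in the finite extension `F` of `K` -/
abbrev FamT {K : Type} [Field K] (n r s N : ℕ) (F : IntermediateField K (AlgebraicClosure K)) :
    Type := Finset (Fin N → MvPolynomial ((Fin s ⊕ Fin r) × Fin n) F)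

/-- the forms in `Fam` are multihomogeneous of degree `d` -/
def HomT {K : Type} [Field K] {n r s N : ℕ} {F : IntermediateField K (AlgebraicClosure K)}
    (Fam : FamT n r s N F) (d : Fin s ⊕ Fin r → ℕ) : Prop := ∀ C ∈ Fam, ∀ c, MH d (C c)

/-- `x` are coordinates of the image of `(u, P)` -/
def ImgT {K : Type} [Field K] {n r s N : ℕ} {A : Fin r → AbVar K n}
    {F : IntermediateField K (AlgebraicClosure K)} (Fam : FamT n r s N F) (u : TpB K s)
    (P : PtsB A) (x : Fin N → AlgebraicClosure K) : Prop :=
  ValT Fam (crT (A := A) (fun i => (u i : AlgebraicClosure K)) P) x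

/-- some form in `Fam` does not vanish at `(u, P)` -/
def DefT {K : Type} [Field K] {n r s N : ℕ} {A : Fin r → AbVar K n}
    {F : IntermediateField K (AlgebraicClosure K)} (Fam : FamT n r s N F) (u : TpB K s)
    (P : PtsB A) : Prop :=
  NV Fam (crT (A := A) (fun i => (u i : AlgebraicClosure K)) P)

/-- A projective variety `X ⊆ ℙ ^ (N - 1)` over `K` (homogeneous equations `eqX`), a closed subset
`W` of it (homogeneous equations `eqW`) and a rational map from the product of the torsors to `X`,
given by the tuples of multihomogeneous forms in `Fam` with coefficients in a finite extension `F`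
of `K` (and defined where one of these forms is not zero), compatible with the Galois action (so
that it is defined over `K`), the image of which contains the complement of `W`. -/
structure RMapT {K : Type} [Field K] {n r s : ℕ} {T : Torus K s} {A : Fin r → AbVar K n}
    (D : Tors T A) (N : ℕ) where
  eqX : Set (MvPolynomial (Fin N) K)
  homX : ∀ g ∈ eqX, ∃ d, g.IsHomogeneous d
  eqW : Set (MvPolynomial (Fin N) K)
  homW : ∀ g ∈ eqW, ∃ d, g.IsHomogeneous d
  F : IntermediateField K (AlgebraicClosure K)
  fin : FiniteDimensional K F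
  Fam : FamT n r s N F
  d : Fin s ⊕ Fin r → ℕ
  Fam_hom : HomT Fam d
  total : ∀ (u : TpB K s) (P : PtsB A), DefT Fam u P → ∃ x, OnX eqX x ∧ ImgT Fam u P x
  surj : ∀ x, OnX eqX x → Off eqW x → ∃ (u : TpB K s) (P : PtsB A), ImgT Fam u P x
  gal : ∀ (σ : GalK K) (u : TpB K s) (P : PtsB A) (x : Fin N → AlgebraicClosure K),
    ImgT Fam u P x → ImgT Fam (twT D σ u) (twA D σ P) (fun c => σ (x c))

/-- the image of the point `(u, P)` under `g` is `(u', P')` -/
def Moves {K : Type} [Field K] {n r s : ℕ} {T : Torus K s} {A : Fin r → AbVar K n} {D : Tors T A}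
    {G : Type} [Group G] (S : GActT D G) (g : G) (u : TpB K s) (P : PtsB A) (u' : TpB K s)
    (P' : PtsB A) : Prop :=
  u' = mon (S.linT g) u * S.trT g ∧ ∀ b, P' b = S.act.lin g b (P b) + S.act.tr g b

/-- The fibres of the rational map over the points over the algebraic closure outside `W` are the
orbits of `G`, and the stabilisers of the points in these fibres act on the torsor of the torus by
translations (for instance, they are trivial). -/
def IsQuotT {K : Type} [Field K] {n r s N : ℕ} {T : Torus K s} {A : Fin r → AbVar K n}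
    {D : Tors T A} {G : Type} [Group G] (X : RMapT D N) (S : GActT D G) : Prop :=
  ∀ (u : TpB K s) (P : PtsB A) (x : Fin N → AlgebraicClosure K), ImgT X.Fam u P x → Off X.eqW x →
    (∀ (u' : TpB K s) (P' : PtsB A), ImgT X.Fam u' P' x ↔ ∃ g : G, Moves S g u P u' P') ∧
    ∀ g : G, Moves S g u P u P → S.linT g = 1

end Pool.Agent.K1H82.KT
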