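import Pool.Agent.K1H82.KT.Loc

/-!
# Finiteness of the set of the local ideals
-/

set_option autoImplicit false
set_option linter.unusedSectionVars false

open MvPolynomial Pool.Agent.TH954.X Pool.Agent.K1H82.KM Filter Topology
open Pool.Agent.K1H82.KQ (PtB GalK cjg OnX sg torB)
open Pool.Agent.K1H82.KA (PtsB GActP ln ln_mul ln_one apP apP_mul apP_one trP_mul trP_one sgP
  mapV_up cenP ln_cen RP orb_fin)
open Pool.Agent.K1H82.KR (Off off_up RatPts)
open Pool.Agent.K1H82.KS (IdealFin Uni empty_eq)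

namespace Pool.Agent.K1H82.KT

variable {K : Type} [Field K] {n r s N : ℕ} {T : Torus K s}
  {A : Fin r → AbVar K n} {D : Tors T A} {G : Type} [Group G]

lemma ZIT_congr (X : RMapT D N) {P P' : Pts A (AlgebraicClosure K)} {J : Set (Fin r)}
    (h : ∀ b, b ∉ J → P' b = P b) : ZIT X P' J = ZIT X P J := by
  ext f
  constructor
  · intro hf v Q z hQ
    exact hf v Q z (fun b hb => (hQ b hb).trans (h b hb).symm)
  · intro hf v Q z hQ
    exact hf v Q z (fun b hb => (hQ b hb).trans (h b hb))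

section fin

variable [CharZero K] [Fintype G]

/-- the ideals which occur -/
def TypT (X : RMapT D N) (S : GActT D G) : Set (Set (MvPolynomial (Fin N) K)) :=
  {I | ∃ (u : TpB K s) (P : PtsB A) (y : Fin N → K), ImgT X.Fam u P (up y) ∧
    Off X.eqW (up y) ∧ I = ZIT X P (NT (RT S P))}

theorem typT_fin [NumberField K] {X : RMapT D N} {S : GActT D G} (h : IsQuotT X S) :
    (TypT X S).Finite := by
  classical
  choose c hc using fun b => (A b).div (AlgebraicClosure K) (Zc S b) (nn (D := D) (G := G))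
    nn_pos
  have hc' : ∀ b, nn (D := D) (G := G) • (c b : (A b).Pt (AlgebraicClosure K)) = Zc S b := hc
  set d : Fin r → ℕ := fun b => Fintype.card ((F0 D ≃ₐ[K] F0 D) × G) *
    (orb_fin (c b)).toFinset.card with hd
  have hTB := fun b => torB (A b) (d b)
  have hS : ∀ b, (({0} : Set ((A b).Pt (AlgebraicClosure K))) ∪ (fun w => c b + w) ''
      {w : (A b).Pt (AlgebraicClosure K) | (∃ k : ℕ, 0 < k ∧ k • w = 0) ∧
        ∃ s : Finset ((A b).Pt (AlgebraicClosure K)),
          s.card ≤ d b ∧ ∀ σ, sg (A b) σ w ∈ s}).Finite := fun b =>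
    (Set.finite_singleton _).union ((hTB b).image _)
  refine (Set.Finite.biUnion (Set.toFinite (Set.univ : Set (Set (Fin r)))) (fun J _ =>
    (Set.Finite.pi hS).image (fun P => ZIT X P J))).subset ?_
  rintro _ ⟨u, P, y, hy, ho, rfl⟩
  refine Set.mem_biUnion (Set.mem_univ (NT (RT S P)))
    ⟨fun b => if b ∈ NT (RT S P) then 0 else P b, ?_, ZIT_congr X (fun b hb => if_neg hb)⟩
  rw [Set.mem_pi]
  intro b _
  by_cases hb : b ∈ NT (RT S P)
  · left
    exact if_pos hb
  · right
    refine ⟨P b - c b, ⟨?_, ?_⟩, ?_⟩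
    · have h3 := hb
      simp only [NT, Set.mem_ofPred_eq, not_forall, not_not] at h3
      obtain ⟨m, hm, hm'⟩ := h3
      refine ⟨m.natAbs * nn (D := D) (G := G), Nat.mul_pos (Int.natAbs_pos.2 hm) nn_pos, ?_⟩
      rw [mul_smul, smul_sub, hc']
      change m.natAbs • RT S P b = 0
      rcases Int.natAbs_eq m with h4 | h4
      · rw [h4, natCast_zsmul] at hm'
        exact hm'
      · rw [h4, neg_smul, natCast_zsmul, neg_eq_zero] at hm'
        exact hm'
    · refine ⟨(Finset.univ ×ˢ (orb_fin (c b)).toFinset).image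
        (fun p : ((F0 D ≃ₐ[K] F0 D) × G) × (A b).Pt (AlgebraicClosure K) =>
          ln S.act p.1.2 b (P b) + S.act.tr p.1.2 b - cH D p.1.1 b - p.2), ?_, fun σ => ?_⟩
      · refine Finset.card_image_le.trans ?_
        rw [Finset.card_product, Finset.card_univ]
      · obtain ⟨g, hg⟩ := conj_ex h hy ho σ
        rw [Finset.mem_image]
        refine ⟨((rsF (F0 D) σ, g), sg (A b) σ (c b)), ?_, ?_⟩
        · rw [Finset.mem_product]
          exact ⟨Finset.mem_univ _, (orb_fin (c b)).mem_toFinset.2 ⟨σ, rfl⟩⟩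
        · have h5 : sg (A b) σ (P b) + D.c σ b = ln S.act g b (P b) + S.act.tr g b := hg.2 b
          change ln S.act g b (P b) + S.act.tr g b - cH D (rsF (F0 D) σ) b - sg (A b) σ (c b) = _
          rw [cH_rs, map_sub, ← h5, add_sub_cancel_right]
    · change c b + (P b - c b) = if b ∈ NT (RT S P) then 0 else P b
      rw [if_neg hb, add_sub_cancel]

theorem mainT [NumberField K] (hDen : S_DEN) (hSml : S_SML) (hA : ∀ b, GeomSimple (A b))
    {X : RMapT D N} {S : GActT D G} (hX : IsQuotT X S) {ι : Type} [Finite ι] [Nonempty ι]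
    (L : ι → Type) [∀ i, NontriviallyNormedField (L i)] [∀ i, CompleteSpace (L i)]
    (σ : ∀ i, K →+* L i) (hσ : ∀ i, DenseRange (σ i)) (x : ∀ i, Fin N → L i)
    (hx0 : ∀ i, x i ≠ 0) :
    IdealFin X.eqX X.eqW σ x ∈ (fun S => {f | ∀ I ∈ S, f ∈ I}) '' (TypT X S).powerset := by
  -- the types which occur in every neighbourhood
  set S' : Set (Set (MvPolynomial (Fin N) K)) := {I | I ∈ TypT X S ∧
    ∀ U : ∀ i, Set (Fin N → L i), (∀ i, U i ∈ 𝓝 (x i)) →
    ∃ (u : TpB K s) (P : PtsB A) (y : Fin N → K), ImgT X.Fam u P (up y) ∧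
      Off X.eqW (up y) ∧ (∀ i, ∃ c : L i, c ≠ 0 ∧ (fun j => c * σ i (y j)) ∈ U i) ∧
      I = ZIT X P (NT (RT S P))} with hS'
  refine ⟨S', fun I hI => hI.1, ?_⟩
  ext f
  constructor
  · intro hf
    have hU : ∀ I ∈ TypT X S, ∃ U : ∀ i, Set (Fin N → L i), (∀ i, U i ∈ 𝓝 (x i)) ∧ (I ∉ S' →
        ¬ ∃ (u : TpB K s) (P : PtsB A) (y : Fin N → K), ImgT X.Fam u P (up y) ∧
          Off X.eqW (up y) ∧ (∀ i, ∃ c : L i, c ≠ 0 ∧ (fun j => c * σ i (y j)) ∈ U i) ∧
          I = ZIT X P (NT (RT S P))) := by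
      intro I hI
      by_cases hIS : I ∈ S'
      · exact ⟨fun _ => Set.univ, fun _ => univ_mem, fun h => absurd hIS h⟩
      · have h1 : ¬ ∀ U : ∀ i, Set (Fin N → L i), (∀ i, U i ∈ 𝓝 (x i)) →
            ∃ (u : TpB K s) (P : PtsB A) (y : Fin N → K), ImgT X.Fam u P (up y) ∧
              Off X.eqW (up y) ∧
              (∀ i, ∃ c : L i, c ≠ 0 ∧ (fun j => c * σ i (y j)) ∈ U i) ∧
              I = ZIT X P (NT (RT S P)) := fun h => hIS ⟨hI, h⟩
        simp only [not_forall] at h1
        obtain ⟨U, hU, hU'⟩ := h1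
        exact ⟨U, hU, fun _ => hU'⟩
    choose! U hU hUI using hU
    refine ⟨fun i => ⋂ I ∈ TypT X S, U I i, fun i => (Filter.biInter_mem (typT_fin hX)).2
      (fun I hI => hU I hI i), ?_⟩
    rintro y ⟨hy0, hye, hyo⟩ hyU a
    have hup0 : up y ≠ 0 := by
      intro h0
      apply hy0
      funext i
      have := congrFun h0 i
      exact (map_eq_zero_iff _ (algebraMap K (AlgebraicClosure K)).injective).1 this
    have ho : Off X.eqW (up y) := off_up.2 hyo
    obtain ⟨u, P, hP⟩ := X.surj (up y) ⟨hup0, fun g hg => (eval_up_iff y g).2 (hye g hg)⟩ ho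
    have hT : ZIT X P (NT (RT S P)) ∈ TypT X S := ⟨u, P, y, hP, ho, rfl⟩
    have hIS : ZIT X P (NT (RT S P)) ∈ S' := by
      by_contra hIS
      refine hUI _ hT hIS ⟨u, P, y, hP, ho, fun i => ?_, rfl⟩
      obtain ⟨c, hc, hcU⟩ := hyU i
      exact ⟨c, hc, Set.mem_iInter₂.1 hcU _ hT⟩
    have h2 := hf _ hIS u P (up y) (fun b _ => rfl) hP (algebraMap K (AlgebraicClosure K) a)
    have h3 : algebraMap K (AlgebraicClosure K) a • up y = up (a • y) := by
      funext i
      change _ * algebraMap K (AlgebraicClosure K) (y i) =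
        algebraMap K (AlgebraicClosure K) (a * y i)
      rw [map_mul]
    rw [h3] at h2
    exact (eval_up_iff _ _).1 h2
  · rintro ⟨U, hU, hf⟩ I ⟨hI, hI'⟩
    choose V hVU hV hxV using fun i => mem_nhds_iff.1 (hU i)
    have hV0 : ∀ i, IsOpen (V i ∩ {v | v ≠ 0}) := fun i => (hV i).inter isOpen_ne
    obtain ⟨u, P, y, hy, ho, hc, rfl⟩ := hI' (fun i => V i ∩ {v | v ≠ 0})
      (fun i => (hV0 i).mem_nhds ⟨hxV i, hx0 i⟩)
    refine locT hDen hSml hA hX L σ hσ f hV0 (fun i h => h.2 rfl) ?_ u P y hy ho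
      (fun i => (hc i).imp fun c h => h.2)
    intro y hy0 hye hyo hc a
    refine hf y ⟨hy0, hye, hyo⟩ (fun i => ?_) a
    obtain ⟨c, hc, hcU⟩ := hc i
    exact ⟨c, hc, hVU i hcU.1⟩

end fin

/-- The complement of a closed subset in a projective variety in `ℙ ^ (N - 1)` which is the quotient
by a finite group of an open subset of a product of torsors of a torus and of geometrically simple
abelian varieties over `K`. -/
structure PieceT (K : Type) [Field K] (N : ℕ) where
  s : ℕ
  T : Torus K s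
  n : ℕ
  r : ℕ
  A : Fin r → AbVar K n
  simple : ∀ b, GeomSimple (A b)
  D : Tors T A
  G : Type
  [grp : Group G]
  [fin : Finite G]
  S : GActT D G
  X : RMapT D N
  quot : IsQuotT X S

attribute [instance] PieceT.grp PieceT.fin

/-- one piece -/
theorem uni_pieceT (hDen : S_DEN) (hSml : S_SML) {K : Type} [Field K] [NumberField K] {N : ℕ}
    (p : PieceT K N) : Uni p.X.eqX p.X.eqW := by
  have := Fintype.ofFinite p.G
  refine ⟨(fun S => {f | ∀ I ∈ S, f ∈ I}) '' (TypT p.X p.S).powerset ∪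
    {{f | ∀ y ∈ RatPts p.X.eqX p.X.eqW, ∀ a : K, eval (a • y) f = 0}},
    ((typT_fin p.quot).powerset.image _).union (Set.finite_singleton _), ?_⟩
  intro ι _ L _ _ σ hσ x hx0
  cases isEmpty_or_nonempty ι with
  | inl h =>
    right
    exact empty_eq _ _ _ _
  | inr h =>
    left
    exact mainT hDen hSml p.simple p.quot L σ hσ x hx0

end Pool.Agent.K1H82.KT
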