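import Pool.Agent.K1H82.KT.Pl

/-!
# The local Zariski closures
-/

set_option autoImplicit false
set_option linter.unusedSectionVars false

open MvPolynomial Pool.Agent.TH954.X Pool.Agent.K1H82.KM Filter Topology
open Pool.Agent.K1H82.KQ (PtB GalK cjg OnX sg)
open Pool.Agent.K1H82.KA (PtsB GActP ln ln_mul ln_one apP apP_mul apP_one trP_mul trP_one sgP
  mapV_up cenP ln_cen RP exists_ptsE closure_trans2)
open Pool.Agent.K1H82.KR (Off off_up)
open Pool.Agent.K1H82.KS (Sq sq_near)

namespace Pool.Agent.K1H82.KT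

lemma BasZ.all {ι : Type} [Finite ι] {𝓤 : ι → Set (Set ℤ)} (h : ∀ i, BasZ (𝓤 i)) :
    BasZ {U | ∃ V : ι → Set ℤ, (∀ i, V i ∈ 𝓤 i) ∧ U = ⋂ i, V i} := by
  refine ⟨?_, ?_, ?_, ?_, ?_⟩
  · choose V hV using fun i => (h i).ne
    exact ⟨_, V, hV, rfl⟩
  · rintro _ ⟨V, hV, rfl⟩
    exact Set.mem_iInter.2 (fun i => (h i).zero _ (hV i))
  · rintro _ ⟨V, hV, rfl⟩
    exact Sq.iInter (fun i => (h i).sq _ (hV i))
  · rintro _ ⟨V, hV, rfl⟩
    choose V' hV' h' using fun i => (h i).sub _ (hV i)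
    refine ⟨_, ⟨V', hV', rfl⟩, fun m hm m' hm' => Set.mem_iInter.2 (fun i => ?_)⟩
    exact h' i m (Set.mem_iInter.1 hm i) m' (Set.mem_iInter.1 hm' i)
  · rintro _ ⟨V, hV, rfl⟩ _ ⟨V', hV', rfl⟩
    choose V2 hV2 h2 using fun i => (h i).inter _ (hV i) _ (hV' i)
    refine ⟨_, ⟨V2, hV2, rfl⟩, fun m hm => ⟨Set.mem_iInter.2 (fun i => ?_),
      Set.mem_iInter.2 (fun i => ?_)⟩⟩
    · exact (h2 i (Set.mem_iInter.1 hm i)).1
    · exact (h2 i (Set.mem_iInter.1 hm i)).2

section multi

variable {K : Type} [Field K] {n r s : ℕ} {A : Fin r → AbVar K n}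

theorem multiT (hA : ∀ b, GeomSimple (A b)) (P R : Pts A (AlgebraicClosure K))
    (𝓤 : Fin r → Set (Set ℤ)) (h𝓤 : ∀ b, IsBas (𝓤 b)) (U : Fin r → Set ℤ) (hU : ∀ b, U b ∈ 𝓤 b)
    {K1 : Type} [Field K1] [Algebra K1 (AlgebraicClosure K)]
    {Φ : MvPolynomial ((Fin s ⊕ Fin r) × Fin n) K1} {τ : Fin s ⊕ Fin r → ℕ} (hΦ : MH τ Φ)
    (w : Fin s → AlgebraicClosure K)
    (h : ∀ m : Fin r → ℤ, (∀ b, m b ∈ U b) →
      ev Φ (crT (A := A) w (fun b => P b + m b • R b)) = 0)
    (Q : Pts A (AlgebraicClosure K)) (hQ : ∀ b, b ∉ NT R → Q b = P b) :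
    ev Φ (crT (A := A) w Q) = 0 := by
  classical
  have key : ∀ S : Finset (Fin r), (∀ b ∈ S, b ∈ NT R) → ∀ Q : Pts A (AlgebraicClosure K),
      (∀ b, b ∉ S → ∃ m ∈ U b, Q b = P b + m • R b) → ev Φ (crT (A := A) w Q) = 0 := by
    intro S
    induction S using Finset.induction_on with
    | empty =>
      intro _ Q hQ
      choose m hm hm' using fun b => hQ b (Finset.notMem_empty b)
      have : Q = fun b => P b + m b • R b := funext hm'
      rw [this]
      exact h m hm
    | insert b0 S hb0 ih =>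
      intro hS Q hQ
      have h5 : ∀ Q0 : (A b0).Pt (AlgebraicClosure K),
          crT (A := A) w (Function.update Q b0 Q0) =
            fun j => if j = Sum.inr b0 then Q0.1 else crT (A := A) w Q j := by
        intro Q0
        funext j
        rcases j with i | b
        · rw [if_neg (by simp)]
          rfl
        · by_cases hb : b = b0
          · subst hb
            rw [if_pos rfl]
            change (Function.update Q b Q0 b).1 = _
            rw [Function.update_self]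
          · rw [if_neg (by simpa using hb)]
            change (Function.update Q b0 Q0 b).1 = _
            rw [Function.update_of_ne hb]
            rfl
      have h1 : eval (Q b0).1 (spec (Sum.inr b0) (crT (A := A) w Q) Φ) = 0 := by
        refine closure_trans2 (hA b0) (P b0) (R b0) (hS b0 (Finset.mem_insert_self _ _))
          (h𝓤 b0) (hU b0) (spec_hom (Sum.inr b0) _ hΦ) (fun m hm => ?_) (Q b0)
        rw [spec_eval]
        have h2 := ih (fun b hb => hS b (Finset.mem_insert_of_mem hb))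
          (Function.update Q b0 (P b0 + m • R b0)) (fun b hb => ?_)
        · rw [h5] at h2
          exact h2
        · by_cases hbb : b = b0
          · subst hbb
            exact ⟨m, hm, by rw [Function.update_self]⟩
          · obtain ⟨m', hm', hm2⟩ := hQ b (by
              rw [Finset.mem_insert, not_or]
              exact ⟨hbb, hb⟩)
            exact ⟨m', hm', by rw [Function.update_of_ne hbb]; exact hm2⟩
      rw [spec_eval, ← h5, Function.update_eq_self] at h1
      exact h1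
  refine key (Finset.univ.filter (· ∈ NT R)) (fun b hb => (Finset.mem_filter.1 hb).2) Q
    (fun b hb => ⟨0, (h𝓤 b).zero _ (hU b), ?_⟩)
  rw [zero_smul, add_zero]
  refine hQ b (fun hb' => hb ?_)
  rw [Finset.mem_filter]
  exact ⟨Finset.mem_univ _, hb'⟩

/-- the polynomial in the torus variables -/
noncomputable def tsp {K1 : Type} [Field K1] [Algebra K1 (AlgebraicClosure K)]
    (Φ : MvPolynomial ((Fin s ⊕ Fin r) × Fin n) K1) (Q : Pts A (AlgebraicClosure K)) :
    MvPolynomial (Fin s) (AlgebraicClosure K) :=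
  aeval (fun p : (Fin s ⊕ Fin r) × Fin n => Sum.elim
    (fun i : Fin s => (if p.2.1 = 0 then 1 else if p.2.1 = 1 then X i else 0 :
      MvPolynomial (Fin s) (AlgebraicClosure K))) (fun b => C ((Q b).1 p.2)) p.1) Φ

lemma tsp_eval {K1 : Type} [Field K1] [Algebra K1 (AlgebraicClosure K)]
    (Φ : MvPolynomial ((Fin s ⊕ Fin r) × Fin n) K1) (Q : Pts A (AlgebraicClosure K))
    (w : Fin s → AlgebraicClosure K) : eval w (tsp Φ Q) = ev Φ (crT (A := A) w Q) := by
  unfold tsp ev
  have h := MvPolynomial.comp_aeval_apply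
    (f := fun p : (Fin s ⊕ Fin r) × Fin n => Sum.elim
    (fun i : Fin s => (if p.2.1 = 0 then 1 else if p.2.1 = 1 then X i else 0 :
      MvPolynomial (Fin s) (AlgebraicClosure K))) (fun b => C ((Q b).1 p.2)) p.1)
    ((aeval w : MvPolynomial (Fin s) (AlgebraicClosure K) →ₐ[AlgebraicClosure K]
      AlgebraicClosure K).restrictScalars K1) Φ
  have h0 : ∀ p : MvPolynomial (Fin s) (AlgebraicClosure K), eval w p = aeval w p := fun p => by
    rw [aeval_eq_eval]
  rw [h0]
  refine (h.trans ?_)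
  congr 1
  congr 1
  funext p
  obtain ⟨j, c⟩ := p
  rcases j with i | b
  · change aeval w (if c.1 = 0 then 1 else if c.1 = 1 then X i else 0 :
      MvPolynomial (Fin s) (AlgebraicClosure K)) =
        if c.1 = 0 then 1 else if c.1 = 1 then w i else 0
    split_ifs
    · rw [map_one]
    · rw [aeval_X]
    · rw [map_zero]
  · change aeval w (C ((Q b).1 c)) = (Q b).1 c
    rw [aeval_C]
    rfl

end multi

section main

variable {K : Type} [Field K] [NumberField K] {n r s N : ℕ} {T : Torus K s}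
  {A : Fin r → AbVar K n} {D : Tors T A} {G : Type} [Group G] {X : RMapT D N} {S : GActT D G}

/-- the polynomials which vanish at the images of the points which agree with `P` outside `J` -/
def ZIT (X : RMapT D N) (P : Pts A (AlgebraicClosure K)) (J : Set (Fin r)) :
    Set (MvPolynomial (Fin N) K) :=
  {f | ∀ (v : TpB K s) (Q : PtsB A) (z : Fin N → AlgebraicClosure K),
    (∀ b, b ∉ J → Q b = P b) → ImgT X.Fam v Q z → ∀ a : AlgebraicClosure K,
      aeval (a • z) f = 0}

lemma small_inf {ι : Type} [Finite ι] [Nonempty ι] (hS : S_SML) (L : ι → Type)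
    [∀ i, NontriviallyNormedField (L i)] (σ : ∀ i, K →+* L i) (hσ : ∀ i, DenseRange (σ i))
    (ε : ι → ℝ) (hε : ∀ i, 0 < ε i) : {z : K | ∀ i, ‖σ i z‖ < ε i}.Infinite := by
  classical
  have := Fintype.ofFinite ι
  have hne : (Finset.univ : Finset ι).Nonempty := Finset.univ_nonempty
  set ε0 : ℝ := min 1 (Finset.univ.inf' hne ε) with hε0
  have h0 : 0 < ε0 := lt_min one_pos ((Finset.lt_inf'_iff hne).2 (fun i _ => hε i))
  obtain ⟨z, hz0, hz⟩ := hS K ι L σ hσ ε0 h0
  have h1 : ∀ i, ‖σ i z‖ < 1 := fun i => (hz i).trans_le (min_le_left _ _)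
  have h2 : ∀ i, ‖σ i z‖ < ε i := fun i => (hz i).trans_le ((min_le_right _ _).trans
    (Finset.inf'_le _ (Finset.mem_univ i)))
  obtain ⟨i0⟩ := ‹Nonempty ι›
  have hpos : 0 < ‖σ i0 z‖ := norm_pos_iff.2 ((map_ne_zero (σ i0)).2 hz0)
  refine Set.infinite_of_injective_forall_mem (f := fun k : ℕ => z ^ (k + 1)) ?_ ?_
  · intro k l hkl
    have h3 : ‖σ i0 z‖ ^ (k + 1) = ‖σ i0 z‖ ^ (l + 1) := by
      have := congrArg (fun w => ‖σ i0 w‖) (show z ^ (k + 1) = z ^ (l + 1) from hkl)
      simpa only [map_pow, norm_pow] using this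
    have h4 := (pow_right_strictAnti₀ hpos (h1 i0)).injective h3
    omega
  · intro k i
    rw [map_pow, norm_pow, pow_succ]
    calc ‖σ i z‖ ^ k * ‖σ i z‖ ≤ 1 * ‖σ i z‖ :=
          mul_le_mul_of_nonneg_right (pow_le_one₀ (norm_nonneg _) (h1 i).le) (norm_nonneg _)
      _ < ε i := by rw [one_mul]; exact h2 i

lemma ev_aevalT {ι' : Type} {K1 : Type} [Field K1] [Algebra K K1] {E : Type} [Field E]
    [Algebra K E] [Algebra K1 E] [IsScalarTower K K1 E] (g : MvPolynomial (Fin N) K)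
    (C : Fin N → MvPolynomial (ι' × Fin n) K1) (u : ι' → Fin n → E) :
    ev (aeval C g) u = aeval (fun c => ev (C c) u) g := by
  unfold ev
  exact MvPolynomial.comp_aeval_apply (f := C)
    ((aeval (fun p : ι' × Fin n => u p.1 p.2) :
      MvPolynomial (ι' × Fin n) K1 →ₐ[K1] E).restrictScalars K) g

lemma MH_aevalT {ι' : Type} [Fintype ι'] [DecidableEq ι'] {K1 : Type} [Field K1] [Algebra K K1]
    {g : MvPolynomial (Fin N) K} {δ : ℕ}
    (hg : g.IsHomogeneous δ) {d : ι' → ℕ} (C : Fin N → MvPolynomial (ι' × Fin n) K1)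
    (hC : ∀ c, MH d (C c)) : MH (fun j => δ * d j) (aeval C g) := by
  have h := MH_aeval (hg.map (algebraMap K K1)) C hC
  rwa [aeval_map_algebraMap] at h

/-- The local Zariski closure at several places contains the images of all the points which agree
with `P` at the factors where `R` is torsion. -/
theorem locT (hDen : S_DEN) (hSml : S_SML) [Fintype G] (hA : ∀ b, GeomSimple (A b))
    (hX : IsQuotT X S) {ι : Type} [Finite ι] [Nonempty ι]
    (L : ι → Type) [∀ i, NontriviallyNormedField (L i)] [∀ i, CompleteSpace (L i)]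
    (σ : ∀ i, K →+* L i) (hσ : ∀ i, DenseRange (σ i))
    (f : MvPolynomial (Fin N) K) {U : ∀ i, Set (Fin N → L i)} (hU : ∀ i, IsOpen (U i))
    (h0 : ∀ i, (0 : Fin N → L i) ∉ U i)
    (hf : ∀ y : Fin N → K, y ≠ 0 → (∀ g ∈ X.eqX, eval y g = 0) → (∃ h ∈ X.eqW, eval y h ≠ 0) →
      (∀ i, ∃ c : L i, c ≠ 0 ∧ (fun j => c * σ i (y j)) ∈ U i) → ∀ a : K, eval (a • y) f = 0)
    (u : TpB K s) (P : PtsB A) (y : Fin N → K) (hy : ImgT X.Fam u P (up y))
    (ho : Off X.eqW (up y)) (hc0 : ∀ i, ∃ c : L i, (fun j => c * σ i (y j)) ∈ U i) :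
    f ∈ ZIT X P (NT (RT S P)) := by
  classical
  choose c0 hc0 using hc0
  obtain ⟨F, hF1, hF2, hB, hXF, hRF⟩ := big_exists X u P (RT S P)
  set ω := Module.finBasis K F with hω
  obtain ⟨C0, hC0, s0, hs0, hCs0⟩ := ValT.exists_ne hy
  have ho' := ho
  obtain ⟨g0, hg0, hg0'⟩ := ho'
  obtain ⟨δ0, hδ0⟩ := X.homW g0 hg0
  obtain ⟨j0, hj0⟩ := Function.ne_iff.1 (ValT.ne_zero hy)
  have hmul : ∀ w : Fin s ⊕ Fin r → Fin n → AlgebraicClosure K,
      ev (C0 j0 * aeval C0 g0) w = ev (C0 j0) w * aeval (fun c => ev (C0 c) w) g0 := by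
    intro w
    rw [← ev_aevalT]
    unfold ev
    rw [map_mul]
  have hMH0 : MH (fun j => X.d j + δ0 * X.d j) (C0 j0 * aeval C0 g0) :=
    MH_mul (X.Fam_hom C0 hC0 j0) (MH_aevalT hδ0 C0 (X.Fam_hom C0 hC0))
  have hne0 : ev (C0 j0 * aeval C0 g0)
      (crT (A := A) (fun i => (u i : AlgebraicClosure K)) P) ≠ 0 := by
    rw [hmul, hCs0, aeval_smul' hδ0]
    refine mul_ne_zero ?_ (mul_ne_zero (pow_ne_zero _ hs0) hg0')
    rw [congrFun hCs0 j0]
    exact mul_ne_zero hs0 hj0
  choose ε 𝓤 V hε hBas hV hnear using fun i => placeT hX hy ho F hXF hB (RT S P) hRF ω (σ i)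
    (hσ i) (hU i) (h0 i) (hc0 i) hMH0 hne0
  have hinf := small_inf hSml L σ hσ ε hε
  -- the translates by the norms and multiples
  have key0 : ∀ k, ∀ C ∈ X.Fam, ∀ x : Fin s → Fin (Module.finrank K F) → K,
      (∀ j k, x j k ∈ {z : K | ∀ i, ‖σ i z‖ < ε i}) → ∀ a : Tp s F,
      (∀ j, (a j : F) = 1 + ∑ k, x j k • ω k) → ∀ m : Fin r → ℤ, (∀ b, m b ∈ ⋂ i, V i b) →
      ev (aeval C (homogeneousComponent k f)) (crT (A := A)
        (fun i => ((u * nr hX hy ho F a) i : AlgebraicClosure K))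
        (fun b => P b + m b • RT S P b)) = 0 := by
    intro k C hC x hx a ha m hm
    have hn := fun i => hnear i x (fun j k => hx j k i) a ha m
      (fun b => Set.mem_iInter.1 (hm b) i)
    obtain ⟨i0⟩ := ‹Nonempty ι›
    have hn0 := (hn i0).1
    rw [hmul] at hn0
    have hoff : ∀ x, ImgT X.Fam (u * nr hX hy ho F a) (fun b => P b + m b • RT S P b) x →
        Off X.eqW x := by
      intro x hx
      refine ⟨g0, hg0, fun h0 => right_ne_zero_of_mul hn0 ?_⟩
      obtain ⟨t, ht⟩ := hx.1 C0 hC0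
      rw [ht, aeval_smul' hδ0, h0, mul_zero]
    obtain ⟨y', hy', hy'e, hy'v⟩ := ratT hX hy ho (nr hX hy ho F a)
      (fun φ g hg => nr_fix hX hy ho hB a φ hg) m ⟨C0, hC0, j0, left_ne_zero_of_mul hn0⟩ hoff
    have hcU : ∀ i, ∃ c : L i, c ≠ 0 ∧ (fun j => c * σ i (y' j)) ∈ U i :=
      fun i => (hn i).2 y' hy'v
    have h2 : eval y' (homogeneousComponent k f) = 0 :=
      hom_comp_zero (hf y' hy'.ne_zero hy'e (off_up.1 (hoff _ hy'v)) hcU) k
    obtain ⟨t, ht⟩ := hy'v.1 C hC
    rw [ev_aevalT, ht, aeval_smul' (homogeneousComponent_isHomogeneous k f),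
      (eval_up_iff y' _).2 h2, mul_zero]
  have key : ∀ k, ∀ C ∈ X.Fam, ∀ (v : TpB K s) (Q : Pts A (AlgebraicClosure K)),
      (∀ b, b ∉ NT (RT S P) → Q b = P b) → ev (aeval C (homogeneousComponent k f))
        (crT (A := A) (fun i => (v i : AlgebraicClosure K)) Q) = 0 := by
    intro k C hC v Q hQ
    have hMHk := MH_aevalT (homogeneousComponent_isHomogeneous k f) C (X.Fam_hom C hC)
    have h1 := hDen K F (AlgebraicClosure K) s _ ω (MF hX hy ho F) (MF_one hX hy ho hB) _ hinf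
      (fun i => (u i : AlgebraicClosure K)) (tsp (aeval C (homogeneousComponent k f)) Q)
      (fun x hx hxne => ?_) (fun j => (u j : AlgebraicClosure K)⁻¹ * v j)
      (fun j => mul_ne_zero (inv_ne_zero (u j).ne_zero) (v j).ne_zero)
    · rw [tsp_eval] at h1
      have h2 : (fun i => (u i : AlgebraicClosure K) * ((u i : AlgebraicClosure K)⁻¹ * v i)) =
          fun i => (v i : AlgebraicClosure K) := by
        funext i
        rw [mul_inv_cancel_left₀ (u i).ne_zero]
      rwa [h2] at h1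
    · rw [tsp_eval]
      have h3 : (fun i => (u i : AlgebraicClosure K) * ∏ τ : F ≃ₐ[K] F, ∏ j,
          (algebraMap F (AlgebraicClosure K) (τ (1 + ∑ k, x j k • ω k))) ^
            (MF hX hy ho F τ i j)) = fun i => ((u * nr hX hy ho F
              (fun j => Units.mk0 _ (hxne j))) i : AlgebraicClosure K) := by
        funext i
        change _ = (u i : AlgebraicClosure K) * ((nr hX hy ho F
          (fun j => Units.mk0 _ (hxne j)) i : (AlgebraicClosure K)ˣ) : AlgebraicClosure K)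
        rw [nr_val]
        rfl
      rw [h3]
      exact multiT hA P (RT S P)
        (fun b => {U | ∃ V : ι → Set ℤ, (∀ i, V i ∈ 𝓤 i b) ∧ U = ⋂ i, V i})
        (fun b => (BasZ.all (fun i => hBas i b)).isBas) (fun b => ⋂ i, V i b)
        (fun b => ⟨_, fun i => hV i b, rfl⟩) hMHk _
        (fun m hm => key0 k C hC x hx _ (fun j => rfl) m hm) Q hQ
  rintro v Q z hQ hz a
  refine aeval_of_comp (fun k => ?_) a
  obtain ⟨C, hC, t, ht, hCt⟩ := ValT.exists_ne hz
  have h1 := key k C hC v Q hQ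
  rw [ev_aevalT, hCt, aeval_smul' (homogeneousComponent_isHomogeneous k f)] at h1
  exact (mul_eq_zero.1 h1).resolve_left (pow_ne_zero _ ht)

end main

end Pool.Agent.K1H82.KT
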