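import Pool.Agent.K1H82.KT.Alg

/-!
# Norms
-/

set_option autoImplicit false
set_option linter.unusedSectionVars false

open MvPolynomial Pool.Agent.TH954.X Pool.Agent.K1H82.KM
open Pool.Agent.K1H82.KQ (PtB GalK cjg OnX sg)
open Pool.Agent.K1H82.KA (PtsB GActP ln ln_mul ln_one apP apP_mul apP_one trP_mul trP_one sgP
  mapV_up cenP ln_cen RP)
open Pool.Agent.K1H82.KR (Off)

namespace Pool.Agent.K1H82.KT

variable {K : Type} [Field K] [CharZero K] {n r s N : ℕ} {T : Torus K s} {A : Fin r → AbVar K n}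
  {D : Tors T A} {G : Type} [Group G] {X : RMapT D N} {S : GActT D G} (hX : IsQuotT X S) {u : TpB K s}
  {P : PtsB A} {y : Fin N → K} (hy : ImgT X.Fam u P (up y)) (ho : Off X.eqW (up y))
  (F : IntermediateField K (AlgebraicClosure K)) [FiniteDimensional K F] [Normal K F]

/-- `F` contains the coordinates of `(u, P)`, and the torus and the torsors split over `F`. -/
structure Big (D : Tors T A) (u : TpB K s) (P : PtsB A)
    (F : IntermediateField K (AlgebraicClosure K)) : Prop where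
  split : ∀ σ : GalK K, (∀ x ∈ F, σ x = x) → T.ρ σ = 1
  tors : ∀ σ : GalK K, (∀ x ∈ F, σ x = x) → D.a σ = 1 ∧ ∀ b, D.c σ b = 0
  tor : ∀ i, (u i : AlgebraicClosure K) ∈ F
  ab : ∀ b c, (P b).1 c ∈ F

/-- the restriction of an automorphism -/
noncomputable def rsF (φ : GalK K) : F ≃ₐ[K] F := AlgEquiv.restrictNormalHom F φ

lemma rsF_apply (φ : GalK K) (x : F) : ((rsF F φ x : F) : AlgebraicClosure K) = φ x :=
  AlgEquiv.restrictNormal_commutes φ F x

lemma rsF_mul (φ ψ : GalK K) : rsF F (φ * ψ) = rsF F φ * rsF F ψ :=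
  map_mul (AlgEquiv.restrictNormalHom F) φ ψ

lemma rsF_surj (τ : F ≃ₐ[K] F) : ∃ φ : GalK K, rsF F φ = τ :=
  AlgEquiv.restrictNormalHom_surjective (AlgebraicClosure K) τ

/-- a lift of an automorphism -/
noncomputable def lf (τ : F ≃ₐ[K] F) : GalK K := (rsF_surj F τ).choose

lemma rsF_lf (τ : F ≃ₐ[K] F) : rsF F (lf F τ) = τ := (rsF_surj F τ).choose_spec

variable {F}

include hX hy ho in
lemma Mf_congr (hF : Big D u P F) {φ ψ : GalK K} (h : rsF F φ = rsF F ψ) :
    Mf hX hy ho φ = Mf hX hy ho ψ := by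
  have h1 : ∀ x ∈ F, φ x = ψ x := by
    intro x hx
    have := congrArg (fun τ : F ≃ₐ[K] F => ((τ ⟨x, hx⟩ : F) : AlgebraicClosure K)) h
    rwa [rsF_apply, rsF_apply] at this
  have h2 : T.ρ φ = T.ρ ψ := by
    have h3 : T.ρ (ψ⁻¹ * φ) = 1 := hF.split _ (fun x hx => by
      change ψ⁻¹ (φ x) = x
      rw [h1 x hx]
      exact AlgEquiv.symm_apply_apply ψ x)
    have h4 : ψ * (ψ⁻¹ * φ) = φ := mul_inv_cancel_left ψ φ
    rw [← h4, T.ρ_mul, h3, mul_one]
  obtain ⟨g, hg⟩ := conj_ex hX hy ho ψ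
  have hψφ : D.a (ψ⁻¹ * φ) = 1 ∧ ∀ b, D.c (ψ⁻¹ * φ) b = 0 := hF.tors _ (fun x hx => by
    change ψ⁻¹ (φ x) = x
    rw [h1 x hx]
    exact AlgEquiv.symm_apply_apply ψ x)
  have h4 : ψ * (ψ⁻¹ * φ) = φ := mul_inv_cancel_left ψ φ
  have ha : D.a φ = D.a ψ := by
    rw [← h4, D.a_mul, hψφ.1, cjT_eq]
    have : mp (ψ : AlgebraicClosure K →* AlgebraicClosure K) (1 : TpB K s) = 1 := by
      funext i
      exact map_one (Units.map _)
    rw [this, mon_one, one_mul]
  have hc : ∀ b, D.c φ b = D.c ψ b := by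
    intro b
    rw [← h4, D.c_mul, hψφ.2 b]
    have : cjg (A b) ψ 0 = 0 := map_zero (mapH (A b) ψ.toAlgHom)
    rw [this, zero_add]
  have h5 : twT D φ u = twT D ψ u := by
    unfold twT
    rw [cjT_eq, cjT_eq, h2, ha]
    congr 2
    funext i
    exact Units.ext (h1 _ (hF.tor i))
  have h6 : twA D φ P = twA D ψ P := by
    funext b
    unfold twA
    rw [hc b]
    congr 1
    apply Subtype.ext
    funext c
    exact h1 _ (hF.ab b c)
  have hg' : Moves S g u P (twT D φ u) (twA D φ P) := by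
    rw [h5, h6]
    exact hg
  rw [Mf_eq hX hy ho φ hg', Mf_eq hX hy ho ψ hg, h2]

/-- the matrices of the automorphisms of `F` -/
noncomputable def MF (F : IntermediateField K (AlgebraicClosure K)) [FiniteDimensional K F]
    [Normal K F] (τ : F ≃ₐ[K] F) : Matrix (Fin s) (Fin s) ℤ := Mf hX hy ho (lf F τ)

lemma MF_rs (hF : Big D u P F) (φ : GalK K) : MF hX hy ho F (rsF F φ) = Mf hX hy ho φ :=
  Mf_congr hX hy ho hF (rsF_lf F _)

lemma MF_one (hF : Big D u P F) : MF hX hy ho F 1 = 1 := by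
  have h := MF_rs hX hy ho hF 1
  have h1 : rsF F (1 : GalK K) = 1 := map_one (AlgEquiv.restrictNormalHom F)
  rw [h1, Mf_one] at h
  exact h

/-- the embedding of the points over `F`, conjugated by `τ` -/
noncomputable def eb (F : IntermediateField K (AlgebraicClosure K)) (τ : F ≃ₐ[K] F) (a : Tp s F) :
    TpB K s := mp ((algebraMap F (AlgebraicClosure K) : F →* AlgebraicClosure K).comp
      (τ : F →* F)) a

/-- the norm of a point over `F` -/
noncomputable def nr (F : IntermediateField K (AlgebraicClosure K)) [FiniteDimensional K F]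
    [Normal K F] (a : Tp s F) : TpB K s := ∏ τ : F ≃ₐ[K] F, mon (MF hX hy ho F τ) (eb F τ a)

lemma nr_fix (hF : Big D u P F) (a : Tp s F) (φ : GalK K) {g : G}
    (hg : Moves S g u P (twT D φ u) (twA D φ P)) :
    cjT T φ (nr hX hy ho F a) = mon (S.linT g) (nr hX hy ho F a) := by
  have h1 : mp (φ : AlgebraicClosure K →* AlgebraicClosure K) (nr hX hy ho F a) =
      ∏ τ : F ≃ₐ[K] F, mon (MF hX hy ho F τ) (eb F (rsF F φ * τ) a) := by
    have h2 : ∀ t : Finset (F ≃ₐ[K] F), mp (φ : AlgebraicClosure K →* AlgebraicClosure K)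
        (∏ τ ∈ t, mon (MF hX hy ho F τ) (eb F τ a)) =
        ∏ τ ∈ t, mon (MF hX hy ho F τ) (eb F (rsF F φ * τ) a) := by
      classical
      intro t
      induction t using Finset.induction_on with
      | empty =>
        rw [Finset.prod_empty, Finset.prod_empty]
        funext i
        exact map_one (Units.map _)
      | insert τ t hτ ih =>
        rw [Finset.prod_insert hτ, Finset.prod_insert hτ, mp_mul, ih, mp_mon]
        congr 2
        funext i
        apply Units.ext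
        change φ (((τ (a i : F)) : F) : AlgebraicClosure K) = _
        exact (rsF_apply F φ (τ (a i : F))).symm
    exact h2 _
  have h3 : mon (Mf hX hy ho φ) (mp (φ : AlgebraicClosure K →* AlgebraicClosure K)
      (nr hX hy ho F a)) = nr hX hy ho F a := by
    rw [h1, mon_prod]
    unfold nr
    refine Fintype.prod_equiv (Equiv.mulLeft (rsF F φ)) _ _ (fun τ => ?_)
    rw [← mon_mul_mat]
    congr 1
    rw [← MF_rs hX hy ho hF φ]
    change MF hX hy ho F (rsF F φ) * MF hX hy ho F τ = MF hX hy ho F (rsF F φ * τ)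
    have h4 : rsF F φ * τ = rsF F (φ * lf F τ) := by rw [rsF_mul, rsF_lf]
    rw [h4, MF_rs hX hy ho hF, MF_rs hX hy ho hF, Mf_mul]
    rfl
  rw [cjT_eq]
  rw [Mf_eq hX hy ho φ hg] at h3
  conv_rhs => rw [← h3]
  rw [← mon_mul_mat, ← mul_assoc, linT_inv', one_mul]

end Pool.Agent.K1H82.KT
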