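import Pool.Agent.K1H82.KT.Rat

/-!
# The conditions at one place
-/

set_option autoImplicit false
set_option linter.unusedSectionVars false

open MvPolynomial Pool.Agent.TH954.X Pool.Agent.K1H82.KM Filter Topology
open Pool.Agent.K1H82.KQ (PtB GalK cjg OnX sg)
open Pool.Agent.K1H82.KA (PtsB GActP ln ln_mul ln_one apP apP_mul apP_one trP_mul trP_one sgP
  mapV_up cenP ln_cen RP exists_ptsE)
open Pool.Agent.K1H82.KR (Off)
open Pool.Agent.K1H82.KS (Sq sq_near)

namespace Pool.Agent.K1H82.KT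

/-- a basis of neighbourhoods of zero in the integers -/
structure BasZ (𝓤 : Set (Set ℤ)) : Prop where
  ne : 𝓤.Nonempty
  zero : ∀ U ∈ 𝓤, (0 : ℤ) ∈ U
  sq : ∀ U ∈ 𝓤, Sq U
  sub : ∀ U ∈ 𝓤, ∃ U' ∈ 𝓤, ∀ m ∈ U', ∀ m' ∈ U', m - m' ∈ U
  inter : ∀ U ∈ 𝓤, ∀ U' ∈ 𝓤, ∃ U'' ∈ 𝓤, U'' ⊆ U ∩ U'

lemma BasZ.isBas {𝓤 : Set (Set ℤ)} (h : BasZ 𝓤) : IsBas 𝓤 :=
  ⟨h.ne, h.zero, fun U hU => by
    obtain ⟨m, hm, hm'⟩ := (h.sq U hU).exists_ne
    exact ⟨m, hm', hm⟩, h.sub, h.inter⟩

section ev

variable {ι : Type} [Fintype ι] {n : ℕ}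

lemma ev_hom {K1 F1 F2 : Type} [Field K1] [Field F1] [Field F2] [Algebra K1 F1] (g : F1 →+* F2)
    (f : MvPolynomial (ι × Fin n) K1) (w : ι → Fin n → F1) :
    g (ev f w) = eval₂ (g.comp (algebraMap K1 F1)) (fun p => g (w p.1 p.2)) f := by
  unfold ev
  rw [aeval_def, ← RingHom.coe_coe g, MvPolynomial.hom_eval₂]
  rfl

lemma cont_evE {K1 E : Type} [Field K1] [Field E] [TopologicalSpace E] [IsTopologicalRing E]
    [Algebra K1 E] (f : MvPolynomial (ι × Fin n) K1) :
    Continuous fun u : ι → Fin n → E => ev f u := by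
  have h : (fun u : ι → Fin n → E => ev f u) =
      fun u => eval (fun p : ι × Fin n => u p.1 p.2) (MvPolynomial.map (algebraMap K1 E) f) := by
    funext u
    unfold ev
    rw [aeval_def, eval₂_eq_eval_map]
  rw [h]
  exact (MvPolynomial.continuous_eval _).comp
    (continuous_pi fun p => (continuous_apply p.2).comp (continuous_apply p.1))

/-- the homogeneous coordinates `(p, q, 0, …, 0)` -/
def bv {F : Type} [Field F] (n : ℕ) (p q : F) : Fin n → F :=
  fun c => if c.1 = 0 then p else if c.1 = 1 then q else 0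

lemma bv_eq {F : Type} [Field F] (n : ℕ) {p q : F} (hp : p ≠ 0) :
    bv n p q = p • tv n (q / p) := by
  funext c
  change (if c.1 = 0 then p else if c.1 = 1 then q else 0) =
    p * (if c.1 = 0 then 1 else if c.1 = 1 then q / p else 0)
  split_ifs
  · rw [mul_one]
  · rw [mul_div_cancel₀ _ hp]
  · rw [mul_zero]

end ev

section spl

variable {K : Type} [Field K] {n r : ℕ} {L E : Type} [NontriviallyNormedField L] [ProperSpace L]
  [Field E] [Algebra L E] [FiniteDimensional L E] [TopologicalSpace E] [IsModuleTopology L E]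
  [Algebra K E] [Algebra K L] [IsScalarTower K L E]

include L in
lemma split_near {Z Y : Type} [TopologicalSpace Z] [TopologicalSpace Y] (A : Fin r → AbVar K n)
    (P : Pts A E) {Θ : Z × (Fin r → Fin n → E) → Y} (hΘ : Continuous Θ) (z0 : Z) {U : Set Y}
    (hU : U ∈ 𝓝 (Θ (z0, crds P))) :
    ∃ Zn ∈ 𝓝 z0, ∃ W : Fin r → Set (Fin n → E), (∀ b, W b ∈ 𝓝 (0 : (A b).Pt E).1) ∧
      ∀ z ∈ Zn, ∀ R : Pts A E, (∀ b, Nr (W b) (R b).1) → ∃ t : Fin r → E, (∀ b, t b ≠ 0) ∧
        Θ (z, fun b => t b • (P b + R b).1) ∈ U := by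
  have h1 : Θ ⁻¹' U ∈ 𝓝 (z0, crds P) := hΘ.continuousAt.preimage_mem_nhds hU
  rw [nhds_prod_eq, Filter.mem_prod_iff] at h1
  obtain ⟨Zn, hZn, V0, hV0, h2⟩ := h1
  obtain ⟨V, hV, hVU⟩ : ∃ V : Fin r → Set (Fin n → E), (∀ b, V b ∈ 𝓝 (crds P b)) ∧
      ∀ u, (∀ b, u b ∈ V b) → u ∈ V0 := by
    rw [nhds_pi, Filter.mem_pi] at hV0
    obtain ⟨I, -, V, hV, h3⟩ := hV0
    exact ⟨V, hV, fun u hu => h3 (fun b _ => hu b)⟩
  have h4 : ∀ b, ∃ W ∈ 𝓝 (0 : (A b).Pt E).1, ∀ Q : (A b).Pt E, Nr W Q.1 →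
      Nr (V b) (P b + Q).1 := by
    intro b
    obtain ⟨W1, hW1, W2, hW2, h12⟩ := cont_add (L := L) (A b) (P b) 0 (W := V b) (by
      rw [add_zero]
      exact hV b)
    exact ⟨W2, hW2, fun Q hQ => h12 (P b) Q ⟨1, one_ne_zero, by
      rw [one_smul]
      exact mem_of_mem_nhds hW1⟩ hQ⟩
  choose W hW hW' using h4
  refine ⟨Zn, hZn, W, hW, fun z hz R hR => ?_⟩
  choose t ht ht' using fun b => hW' b _ (hR b)
  exact ⟨t, ht, h2 (Set.mk_mem_prod hz (hVU _ ht'))⟩

lemma zpow_toNat {E : Type} [Field E] {e : E} (he : e ≠ 0) (m : ℤ) :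
    e ^ m.toNat / e ^ (-m).toNat = e ^ m := by
  have h : (m.toNat : ℤ) - ((-m).toNat : ℤ) = m := by omega
  conv_rhs => rw [← h]
  rw [zpow_sub₀ he, zpow_natCast, zpow_natCast]

end spl

section place

variable {K : Type} [Field K] [NumberField K] {n r s N m : ℕ} {T : Torus K s}
  {A : Fin r → AbVar K n} {D : Tors T A} {G : Type} [Group G] {X : RMapT D N} {S : GActT D G}
  (hX : IsQuotT X S) {u : TpB K s} {P : PtsB A} {y : Fin N → K} (hy : ImgT X.Fam u P (up y))
  (ho : Off X.eqW (up y)) (F : IntermediateField K (AlgebraicClosure K)) [FiniteDimensional K F]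
  [Normal K F]

lemma nr_val (a : Tp s F) (i : Fin s) : ((nr hX hy ho F a i : (AlgebraicClosure K)ˣ) :
    AlgebraicClosure K) = ∏ τ : F ≃ₐ[K] F, ∏ j,
      (algebraMap F (AlgebraicClosure K) (τ (a j : F))) ^ (MF hX hy ho F τ i j) := by
  unfold nr
  rw [Finset.prod_apply]
  rw [Units.coe_prod]
  refine Finset.prod_congr rfl (fun τ _ => ?_)
  change ((∏ j, (eb F τ a j) ^ MF hX hy ho F τ i j : (AlgebraicClosure K)ˣ) :
    AlgebraicClosure K) = _
  rw [Units.coe_prod]
  refine Finset.prod_congr rfl (fun j _ => ?_)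
  rw [Units.val_zpow_eq_zpow_val]
  rfl

/-- the points near `(u, P)` -/
theorem placeT (hXF : X.F ≤ F) (hB : Big D u P F) (R : PtsB A) (hR : ∀ b c, (R b).1 c ∈ F)
    (ω : Module.Basis (Fin m) K F)
    {L : Type} [NontriviallyNormedField L] [CompleteSpace L] (σ : K →+* L) (hσ : DenseRange σ)
    {U : Set (Fin N → L)} (hU : IsOpen U) (h0 : (0 : Fin N → L) ∉ U)
    {c0 : L} (hc0 : (fun i => c0 * σ (y i)) ∈ U)
    {g0 : MvPolynomial ((Fin s ⊕ Fin r) × Fin n) X.F} {δ : Fin s ⊕ Fin r → ℕ} (hg0 : MH δ g0)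
    (hne : ev g0 (crT (A := A) (fun i => (u i : AlgebraicClosure K)) P) ≠ 0) :
    ∃ (ε : ℝ) (𝓤 : Fin r → Set (Set ℤ)) (V : Fin r → Set ℤ), 0 < ε ∧ (∀ b, BasZ (𝓤 b)) ∧
      (∀ b, V b ∈ 𝓤 b) ∧ ∀ x : Fin s → Fin m → K, (∀ j k, ‖σ (x j k)‖ < ε) →
      ∀ a : Tp s F, (∀ j, (a j : F) = 1 + ∑ k, x j k • ω k) →
      ∀ mm : Fin r → ℤ, (∀ b, mm b ∈ V b) →
        ev g0 (crT (A := A) (fun i => ((u * nr hX hy ho F a) i : AlgebraicClosure K))
          (fun b => P b + mm b • R b)) ≠ 0 ∧
        ∀ y' : Fin N → K, ImgT X.Fam (u * nr hX hy ho F a) (fun b => P b + mm b • R b) (up y') →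
          ∃ c : L, c ≠ 0 ∧ (fun i => c * σ (y' i)) ∈ U := by
  classical
  have hprop : ProperSpace L := W279.Tri.properSpace_of_denseRange σ hσ
  let _ : Algebra K L := σ.toAlgebra
  let φ : AlgebraicClosure K →ₐ[K] AlgebraicClosure L := IsAlgClosed.lift
  set E : IntermediateField L (AlgebraicClosure L) := IntermediateField.adjoin L
    (Set.range fun k => φ (ω k : AlgebraicClosure K)) with hE
  have hfin : FiniteDimensional L E := by
    have : Finite (Set.range fun k => φ (ω k : AlgebraicClosure K)) := Set.finite_range _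
    refine IntermediateField.finiteDimensional_adjoin (fun x _ => ?_)
    exact (AlgebraicClosure.isAlgebraic L).isIntegral.isIntegral x
  let _ : TopologicalSpace E := moduleTopology L E
  have : IsModuleTopology L E := ⟨rfl⟩
  have htr : IsTopologicalRing E := topring L E
  have hmem : ∀ x : F, φ (x : AlgebraicClosure K) ∈ E := by
    intro x
    have h1 : φ (x : AlgebraicClosure K) =
        ∑ k, algebraMap L (AlgebraicClosure L) (σ (ω.repr x k)) *
          φ (ω k : AlgebraicClosure K) := by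
      conv_lhs => rw [← ω.sum_repr x]
      rw [IntermediateField.coe_sum, map_sum]
      refine Finset.sum_congr rfl (fun k _ => ?_)
      rw [IntermediateField.coe_smul, map_smul, Algebra.smul_def]
      rfl
    rw [h1]
    exact sum_mem fun k _ => E.mul_mem (E.algebraMap_mem _)
      (IntermediateField.subset_adjoin L _ ⟨k, rfl⟩)
  set ψ : E →ₐ[K] AlgebraicClosure L := E.val.restrictScalars K with hψ
  -- the homomorphism from `F` to `E`
  let θ : F →ₐ[K] E := (φ.comp F.val).codRestrict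
    (IntermediateField.restrictScalars K E).toSubalgebra (fun x => hmem x)
  have hθ : ∀ x : F, ψ (θ x) = φ (x : AlgebraicClosure K) := fun x => rfl
  let _ : Algebra X.F E := (θ.toRingHom.comp (IntermediateField.inclusion hXF).toRingHom).toAlgebra
  obtain ⟨P', hP'⟩ := exists_ptsE φ P E (fun b c => hmem ⟨(P b).1 c, hB.ab b c⟩)
  obtain ⟨R', hR'⟩ := exists_ptsE φ R E (fun b c => hmem ⟨(R b).1 c, hR b c⟩)
  set u' : Fin s → E := fun i => θ ⟨(u i : AlgebraicClosure K), hB.tor i⟩ with hu'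
  -- evaluation
  have hev : ∀ (f : MvPolynomial ((Fin s ⊕ Fin r) × Fin n) X.F) (v : Fin s ⊕ Fin r → Fin n → E)
      (w : Fin s ⊕ Fin r → Fin n → AlgebraicClosure K), (∀ i c, ψ (v i c) = φ (w i c)) →
      ψ (ev f v) = φ (ev f w) := by
    intro f v w hvw
    have h1 := ev_hom (ψ : E →+* AlgebraicClosure L) f v
    have h2 := ev_hom (φ : AlgebraicClosure K →+* AlgebraicClosure L) f w
    have h3 : (ψ : E →+* AlgebraicClosure L).comp (algebraMap X.F E) =
        (φ : AlgebraicClosure K →+* AlgebraicClosure L).comp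
          (algebraMap X.F (AlgebraicClosure K)) := RingHom.ext fun x => rfl
    have h4 : (fun p : (Fin s ⊕ Fin r) × Fin n => (ψ : E →+* AlgebraicClosure L) (v p.1 p.2)) =
        fun p => (φ : AlgebraicClosure K →+* AlgebraicClosure L) (w p.1 p.2) :=
      funext fun p => hvw p.1 p.2
    rw [h3, h4] at h1
    exact h1.trans h2.symm
  have hψi : Function.Injective ψ := ψ.toRingHom.injective
  have hφi : Function.Injective φ := φ.toRingHom.injective
  have hnz : ∀ (f : MvPolynomial ((Fin s ⊕ Fin r) × Fin n) X.F) (v : Fin s ⊕ Fin r → Fin n → E)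
      (w : Fin s ⊕ Fin r → Fin n → AlgebraicClosure K), (∀ i c, ψ (v i c) = φ (w i c)) →
      (ev f v ≠ 0 ↔ ev f w ≠ 0) := by
    intro f v w hvw
    rw [not_iff_not, ← map_eq_zero_iff ψ hψi, hev f v w hvw, map_eq_zero_iff φ hφi]
  -- scalars
  have hsc : ∀ (v : Fin N → E) (s0 : AlgebraicClosure K) (z : Fin N → K), z ≠ 0 →
      (∀ i, ψ (v i) = φ (s0 * up z i)) → ∃ s1 : E, ψ s1 = φ s0 ∧
        ∀ i, v i = s1 * algebraMap K E (z i) := by
    intro v s0 z hz hv
    obtain ⟨i1, hi1⟩ := Function.ne_iff.1 hz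
    have h1 : ψ (v i1 * algebraMap K E (z i1)⁻¹) = φ s0 := by
      rw [map_mul, hv]
      change φ (s0 * algebraMap K (AlgebraicClosure K) (z i1)) *
        ψ (algebraMap K E (z i1)⁻¹) = φ s0
      rw [AlgHom.commutes, map_mul, AlgHom.commutes, mul_assoc, ← map_mul,
        mul_inv_cancel₀ hi1, map_one, mul_one]
    refine ⟨_, h1, fun i => hψi ?_⟩
    rw [hv, map_mul φ, map_mul ψ (v i1 * _) _, h1, AlgHom.commutes ψ]
    congr 1
    exact AlgHom.commutes φ (z i)
  -- coordinates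
  have hcr : ∀ (v : Fin s → E) (w : Fin s → AlgebraicClosure K) (Q' : Pts A E)
      (Q : Pts A (AlgebraicClosure K)), (∀ i, ψ (v i) = φ (w i)) →
      (∀ b, mapPt (A b) ψ (Q' b) = mapPt (A b) φ (Q b)) →
      ∀ i c, ψ (crT (A := A) v Q' i c) = φ (crT (A := A) w Q i c) := by
    intro v w Q' Q hvw hQ i c
    rcases i with i | b
    · change ψ (if c.1 = 0 then 1 else if c.1 = 1 then v i else 0) =
        φ (if c.1 = 0 then 1 else if c.1 = 1 then w i else 0)
      split_ifs
      · rw [map_one, map_one]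
      · exact hvw i
      · rw [map_zero, map_zero]
    · exact congrArg (fun R : (A b).Pt (AlgebraicClosure L) => R.1 c) (hQ b)
  -- the conjugates of the elements `1 + ∑ x_k ω_k`
  set aE : (Fin s → Fin m → L) → (F ≃ₐ[K] F) → Fin s → E := fun x τ j =>
    1 + ∑ k, algebraMap L E (x j k) * θ (τ (ω k)) with haE
  have haEc : ∀ τ j, Continuous fun x => aE x τ j := by
    intro τ j
    refine continuous_const.add (continuous_finsetSum _ (fun k _ => ?_))
    refine Continuous.mul ?_ continuous_const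
    have hc : Continuous (algebraMap L E) :=
      IsModuleTopology.continuous_of_linearMap (Algebra.linearMap L E)
    exact hc.comp ((continuous_apply k).comp (continuous_apply j))
  have haE0 : ∀ τ j, aE 0 τ j = 1 := by
    intro τ j
    simp only [haE, Pi.zero_apply, map_zero, zero_mul, Finset.sum_const_zero, add_zero]
  have haEx : ∀ (x : Fin s → Fin m → K) τ j, aE (fun j k => σ (x j k)) τ j =
      θ (τ (1 + ∑ k, x j k • ω k)) := by
    intro x τ j
    simp only [haE, map_add, map_one, map_sum]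
    congr 1
    refine Finset.sum_congr rfl (fun k _ => ?_)
    rw [Algebra.smul_def, map_mul, map_mul, AlgEquiv.commutes, AlgHom.commutes,
      IsScalarTower.algebraMap_apply K L E]
    rfl
  set nu : (Fin s → Fin m → L) → Fin s → E := fun x i =>
    u' i * ∏ τ : F ≃ₐ[K] F, ∏ j, (aE x τ j) ^ (MF hX hy ho F τ i j).toNat with hnu
  set de : (Fin s → Fin m → L) → Fin s → E := fun x i =>
    ∏ τ : F ≃ₐ[K] F, ∏ j, (aE x τ j) ^ (-(MF hX hy ho F τ i j)).toNat with hde
  have hnuc : ∀ i, Continuous fun x => nu x i := fun i =>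
    continuous_const.mul (continuous_finsetProd _ (fun τ _ => continuous_finsetProd _
      (fun j _ => (haEc τ j).pow _)))
  have hdec : ∀ i, Continuous fun x => de x i := fun i =>
    continuous_finsetProd _ (fun τ _ => continuous_finsetProd _
      (fun j _ => (haEc τ j).pow _))
  have hcoc : Continuous fun z : (Fin s → Fin m → L) × (Fin r → Fin n → E) =>
      (Sum.elim (fun i => bv n (de z.1 i) (nu z.1 i)) z.2 : Fin s ⊕ Fin r → Fin n → E) := by
    refine continuous_pi fun i => ?_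
    rcases i with i | b
    · refine continuous_pi fun c => ?_
      change Continuous fun z : (Fin s → Fin m → L) × (Fin r → Fin n → E) =>
        if c.1 = 0 then de z.1 i else if c.1 = 1 then nu z.1 i else 0
      split_ifs
      · exact (hdec i).comp continuous_fst
      · exact (hnuc i).comp continuous_fst
      · exact continuous_const
    · exact (continuous_apply b).comp continuous_snd
  have hco0 : (Sum.elim (fun i => bv n (de 0 i) (nu 0 i)) (crds P') :
      Fin s ⊕ Fin r → Fin n → E) = crT (A := A) u' P' := by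
    have h1 : ∀ i, de 0 i = 1 := fun i => by
      simp only [hde, haE0, one_pow, Finset.prod_const_one]
    have h2 : ∀ i, nu 0 i = u' i := fun i => by
      simp only [hnu, haE0, one_pow, Finset.prod_const_one, mul_one]
    funext i
    rcases i with i | b
    · change bv n (de 0 i) (nu 0 i) = tv n (u' i)
      rw [h1, h2]
      rfl
    · rfl
  -- the tuple of forms
  obtain ⟨C0, hC0, s0, hs0, hCs0⟩ := ValT.exists_ne hy
  have hy0 : y ≠ 0 := by
    rintro rfl
    exact ValT.ne_zero hy (funext fun _ => map_zero _)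
  obtain ⟨s1, hs1, hs1'⟩ := hsc (fun i => ev (C0 i) (crT (A := A) u' P')) s0 y hy0 (fun i => by
    rw [hev (C0 i) _ _ (hcr u' (fun i => (u i : AlgebraicClosure K)) P' P (fun i => hθ _) hP')]
    exact congrArg φ (congrFun hCs0 i))
  have hs1n : s1 ≠ 0 := by
    rintro rfl
    rw [map_zero] at hs1
    exact hs0 (hφi (by rw [← hs1, map_zero]))
  obtain ⟨ℓ, hℓ⟩ := LinearMap.exists_leftInverse_of_injective (Algebra.linearMap L E)
    (LinearMap.ker_eq_bot.2 (algebraMap L E).injective)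
  have hℓ' : ∀ (z : L) (e : E), ℓ (e * algebraMap L E z) = z * ℓ e := by
    intro z e
    rw [mul_comm, ← Algebra.smul_def, map_smul, smul_eq_mul]
  have hℓ1 : ∀ z : L, ℓ (algebraMap L E z) = z := fun z => LinearMap.congr_fun hℓ z
  have hℓc : Continuous ℓ := IsModuleTopology.continuous_of_linearMap ℓ
  have ht2 := t2E L E
  have hKE : ∀ z : K, algebraMap K E z = algebraMap L E (σ z) := fun z =>
    IsScalarTower.algebraMap_apply K L E z
  set Θ : (Fin s → Fin m → L) × (Fin r → Fin n → E) → (Fin N → L) × E := fun z =>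
    (fun i => c0 * ℓ (s1⁻¹ * ev (C0 i) (Sum.elim (fun i => bv n (de z.1 i) (nu z.1 i)) z.2)),
      ev g0 (Sum.elim (fun i => bv n (de z.1 i) (nu z.1 i)) z.2)) with hΘ
  have hΘc : Continuous Θ := Continuous.prodMk (continuous_pi fun i => continuous_const.mul
    (hℓc.comp (continuous_const.mul ((cont_evE (C0 i)).comp hcoc)))) ((cont_evE g0).comp hcoc)
  have hΘ0 : U ×ˢ {e : E | e ≠ 0} ∈ 𝓝 (Θ (0, crds P')) := by
    refine prod_mem_nhds (hU.mem_nhds ?_) (isOpen_ne.mem_nhds ?_)
    · have h1 : (Θ (0, crds P')).1 = fun i => c0 * σ (y i) := by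
        funext i
        change c0 * ℓ (s1⁻¹ * ev (C0 i) (Sum.elim (fun i => bv n (de 0 i) (nu 0 i)) (crds P'))) = _
        rw [hco0, hs1', inv_mul_cancel_left₀ hs1n, hKE, hℓ1]
      change (Θ (0, crds P')).1 ∈ U
      rw [h1]
      exact hc0
    · change ev g0 (Sum.elim (fun i => bv n (de 0 i) (nu 0 i)) (crds P')) ≠ 0
      rw [hco0]
      exact (hnz g0 _ _ (hcr u' (fun i => (u i : AlgebraicClosure K)) P' P
        (fun i => hθ _) hP')).2 hne
  obtain ⟨Zn, hZn, W, hW, hnear⟩ := split_near (L := L) A P' hΘc 0 hΘ0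
  obtain ⟨ε, hε, hball⟩ := Metric.mem_nhds_iff.1 hZn
  refine ⟨ε, fun b => {U | ∃ W ∈ 𝓝 (0 : (A b).Pt E).1, U = {m : ℤ | Nr W (m • R' b).1}},
    fun b => {m | Nr (W b) (m • R' b).1}, hε, fun b => ?_, fun b => ⟨W b, hW b, rfl⟩,
    fun x hx a ha mm hmm => ?_⟩
  · have hI := isBas_nr (L := L) (A b) (R' b)
    refine ⟨hI.ne, hI.zero, ?_, hI.sub, hI.inter⟩
    rintro _ ⟨W, hW, rfl⟩
    exact sq_near (L := L) (A b) (R' b) hW
  obtain ⟨t, ht, hnear1, hnear2⟩ := hnear (fun j k => σ (x j k)) (hball (by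
    rw [mem_ball_zero_iff, pi_norm_lt_iff hε]
    intro j
    rw [pi_norm_lt_iff hε]
    exact hx j)) (fun b => mm b • R' b) hmm
  have hae : ∀ τ j, aE (fun j k => σ (x j k)) τ j = θ (τ (a j : F)) := by
    intro τ j
    rw [haEx, ha]
  have hne0 : ∀ (τ : F ≃ₐ[K] F) j, θ (τ (a j : F)) ≠ 0 := by
    intro τ j h1
    have h2 : τ (a j : F) = 0 := θ.toRingHom.injective (h1.trans (map_zero θ).symm)
    exact (a j).ne_zero (τ.injective (h2.trans (map_zero τ).symm))
  have hde0 : ∀ i, de (fun j k => σ (x j k)) i ≠ 0 := by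
    intro i
    refine Finset.prod_ne_zero_iff.2 (fun τ _ => Finset.prod_ne_zero_iff.2 (fun j _ =>
      pow_ne_zero _ ?_))
    rw [hae]
    exact hne0 τ j
  have hquo : ∀ i, nu (fun j k => σ (x j k)) i / de (fun j k => σ (x j k)) i =
      u' i * ∏ τ : F ≃ₐ[K] F, ∏ j, (θ (τ (a j : F))) ^ (MF hX hy ho F τ i j) := by
    intro i
    simp only [hnu, hde, hae]
    rw [mul_div_assoc, ← Finset.prod_div_distrib]
    congr 1
    refine Finset.prod_congr rfl (fun τ _ => ?_)
    rw [← Finset.prod_div_distrib]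
    exact Finset.prod_congr rfl (fun j _ => zpow_toNat (hne0 τ j) _)
  have hψq : ∀ i, ψ (nu (fun j k => σ (x j k)) i / de (fun j k => σ (x j k)) i) =
      φ ((u * nr hX hy ho F a) i : AlgebraicClosure K) := by
    intro i
    have h1 : (((u * nr hX hy ho F a) i : (AlgebraicClosure K)ˣ) : AlgebraicClosure K) =
        (u i : AlgebraicClosure K) * ((nr hX hy ho F a i : (AlgebraicClosure K)ˣ) :
          AlgebraicClosure K) := rfl
    rw [hquo, h1, nr_val, map_mul, map_mul, map_prod, map_prod]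
    congr 1
    refine Finset.prod_congr rfl (fun τ _ => ?_)
    rw [map_prod, map_prod]
    refine Finset.prod_congr rfl (fun j _ => ?_)
    rw [map_zpow₀, map_zpow₀]
    congr 1
  set v : Fin s → E := fun i => nu (fun j k => σ (x j k)) i / de (fun j k => σ (x j k)) i with hv
  set ti : Fin s ⊕ Fin r → E := Sum.elim (fun i => de (fun j k => σ (x j k)) i) t with hti
  have hel : (Sum.elim (fun i => bv n (de (fun j k => σ (x j k)) i)
      (nu (fun j k => σ (x j k)) i)) (fun b => t b • (P' b + mm b • R' b).1) :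
        Fin s ⊕ Fin r → Fin n → E) =
      fun j => ti j • crT (A := A) v (fun b => P' b + mm b • R' b) j := by
    funext j
    rcases j with i | b
    · exact bv_eq n (hde0 i)
    · rfl
  have hQ : ∀ b, mapPt (A b) ψ (P' b + mm b • R' b) = mapPt (A b) φ (P b + mm b • R b) := by
    intro b
    change mapH (A b) ψ (P' b + mm b • R' b) = mapH (A b) φ (P b + mm b • R b)
    rw [map_add, map_add, map_zsmul, map_zsmul, mapH_apply, mapH_apply, mapH_apply,
      mapH_apply, hP', hR']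
  have hco := hcr v (fun i => ((u * nr hX hy ho F a) i : AlgebraicClosure K))
    (fun b => P' b + mm b • R' b) (fun b => P b + mm b • R b) hψq hQ
  refine ⟨?_, fun y' hy' => ?_⟩
  · have h1 : ev g0 (Sum.elim (fun i => bv n (de (fun j k => σ (x j k)) i)
      (nu (fun j k => σ (x j k)) i)) (fun b => t b • (P' b + mm b • R' b).1)) ≠ 0 := hnear2
    rw [hel, ev_smul hg0] at h1
    exact (hnz g0 _ _ hco).1 (right_ne_zero_of_mul h1)
  · have hy'0 : y' ≠ 0 := by
      rintro rfl
      exact ValT.ne_zero hy' (funext fun _ => map_zero _)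
    obtain ⟨s', hs'⟩ := hy'.1 C0 hC0
    obtain ⟨s2, hs2, hs2'⟩ := hsc (fun i => ev (C0 i) (crT (A := A) v
      (fun b => P' b + mm b • R' b))) s' y' hy'0 (fun i => by
        rw [hev (C0 i) _ _ hco]
        exact congrArg φ (congrFun hs' i))
    have h1 : (fun i => c0 * ℓ (s1⁻¹ * ev (C0 i) (Sum.elim (fun i =>
      bv n (de (fun j k => σ (x j k)) i) (nu (fun j k => σ (x j k)) i))
        (fun b => t b • (P' b + mm b • R' b).1)))) ∈ U := hnear1
    have h2 : (fun i => c0 * ℓ (s1⁻¹ * ev (C0 i) (Sum.elim (fun i =>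
      bv n (de (fun j k => σ (x j k)) i) (nu (fun j k => σ (x j k)) i))
        (fun b => t b • (P' b + mm b • R' b).1)))) =
        fun i => (c0 * ℓ (s1⁻¹ * ((∏ j, ti j ^ X.d j) * s2))) * σ (y' i) := by
      funext i
      rw [hel, ev_smul (X.Fam_hom C0 hC0 i), hs2', hKE, ← mul_assoc (∏ j, ti j ^ X.d j),
        ← mul_assoc s1⁻¹, hℓ']
      ring
    rw [h2] at h1
    refine ⟨_, ?_, h1⟩
    intro h0'
    apply h0
    have h8 : (fun i => (c0 * ℓ (s1⁻¹ * ((∏ j, ti j ^ X.d j) * s2))) * σ (y' i)) =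
        (0 : Fin N → L) := by
      funext i
      rw [h0', zero_mul]
      rfl
    rw [h8] at h1
    exact h1

end place

end Pool.Agent.K1H82.KT
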