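import Pool.Agent.K1H82.KT.Cen

/-!
# Rationality
-/

set_option autoImplicit false
set_option linter.unusedSectionVars false

open MvPolynomial Pool.Agent.TH954.X Pool.Agent.K1H82.KM
open Pool.Agent.K1H82.KQ (PtB GalK cjg OnX sg)
open Pool.Agent.K1H82.KA (PtsB GActP ln ln_mul ln_one apP apP_mul apP_one trP_mul trP_one sgP
  mapV_up cenP ln_cen RP)
open Pool.Agent.K1H82.KR (Off)

namespace Pool.Agent.K1H82.KT

section val

variable {K : Type} [Field K] {ι : Type} [Fintype ι] {n N : ℕ}
  {Fam : Finset (Fin N → MvPolynomial (ι × Fin n) K)}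
  {F : Type} [Field F] [Algebra K F]

lemma ValT.ne_zero {u : ι → Fin n → F} {x : Fin N → F} (h : ValT Fam u x) : x ≠ 0 := by
  obtain ⟨h1, C, hC, c, hc⟩ := h
  obtain ⟨s, hs⟩ := h1 C hC
  rintro rfl
  apply hc
  have := congrFun hs c
  rw [smul_zero] at this
  exact this

lemma ValT.exists_ne {u : ι → Fin n → F} {x : Fin N → F} (h : ValT Fam u x) :
    ∃ C ∈ Fam, ∃ s : F, s ≠ 0 ∧ (fun c => ev (C c) u) = s • x := by
  obtain ⟨h1, C, hC, c, hc⟩ := h
  obtain ⟨s, hs⟩ := h1 C hC
  refine ⟨C, hC, s, ?_, hs⟩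
  rintro rfl
  apply hc
  have := congrFun hs c
  rw [zero_smul] at this
  exact this

lemma ValT.unique {u : ι → Fin n → F} {x y : Fin N → F} (h : ValT Fam u x) (h' : ValT Fam u y) :
    ∃ s : F, s ≠ 0 ∧ y = s • x := by
  obtain ⟨C, hC, s, hs, h1⟩ := h.exists_ne
  obtain ⟨t, ht⟩ := h'.1 C hC
  have h2 : t • y = s • x := ht.symm.trans h1
  have ht0 : t ≠ 0 := by
    rintro rfl
    rw [zero_smul] at h2
    exact (smul_ne_zero hs h.ne_zero) h2.symm
  refine ⟨t⁻¹ * s, mul_ne_zero (inv_ne_zero ht0) hs, ?_⟩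
  rw [mul_smul, ← h2, inv_smul_smul₀ ht0]

lemma ValT.smul {u : ι → Fin n → F} {x : Fin N → F} (h : ValT Fam u x) {s : F} (hs : s ≠ 0) :
    ValT Fam u (s • x) := by
  refine ⟨fun C hC => ?_, h.2⟩
  obtain ⟨t, ht⟩ := h.1 C hC
  exact ⟨t * s⁻¹, by rw [ht, smul_smul, mul_assoc, inv_mul_cancel₀ hs, mul_one]⟩

end val

section rat

variable {K : Type} [Field K] [CharZero K] {n r s N : ℕ} {T : Torus K s} {A : Fin r → AbVar K n}
  {D : Tors T A} {G : Type} [Group G] {X : RMapT D N} {S : GActT D G} (hX : IsQuotT X S) {u : TpB K s}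
  {P : PtsB A} {y : Fin N → K} (hy : ImgT X.Fam u P (up y)) (ho : Off X.eqW (up y))

/-- a finite normal extension which contains everything -/
lemma big_exists (X : RMapT D N) (u : TpB K s) (P R : PtsB A) :
    ∃ F : IntermediateField K (AlgebraicClosure K), FiniteDimensional K F ∧ Normal K F ∧
      Big D u P F ∧ X.F ≤ F ∧ ∀ b c, (R b).1 c ∈ F := by
  obtain ⟨F0, hF0, hs⟩ := T.split
  obtain ⟨F3, hF3, hs3⟩ := D.split
  have hF := X.fin
  set F1 : IntermediateField K (AlgebraicClosure K) :=
    IntermediateField.adjoin K ((Set.range fun i : Fin s => (u i : AlgebraicClosure K)) ∪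
      ((Set.range fun p : Fin r × Fin n => (P p.1).1 p.2) ∪
        Set.range fun p : Fin r × Fin n => (R p.1).1 p.2)) with hF1
  have hF1f : FiniteDimensional K F1 := by
    have : Finite ((Set.range fun i : Fin s => (u i : AlgebraicClosure K)) ∪
      ((Set.range fun p : Fin r × Fin n => (P p.1).1 p.2) ∪
        Set.range fun p : Fin r × Fin n => (R p.1).1 p.2) : Set (AlgebraicClosure K)) :=
      ((Set.finite_range _).union ((Set.finite_range _).union (Set.finite_range _))).to_subtype
    refine IntermediateField.finiteDimensional_adjoin (fun x _ => ?_)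
    exact (AlgebraicClosure.isAlgebraic K).isIntegral.isIntegral x
  set F2 : IntermediateField K (AlgebraicClosure K) := F0 ⊔ (X.F ⊔ (F1 ⊔ F3)) with hF2
  have hF2f : FiniteDimensional K F2 := inferInstance
  have hle : F2 ≤ IntermediateField.normalClosure K F2 (AlgebraicClosure K) :=
    IntermediateField.le_normalClosure F2
  have hF1' : F1 ≤ IntermediateField.normalClosure K F2 (AlgebraicClosure K) :=
    ((le_sup_left.trans le_sup_right).trans le_sup_right).trans hle
  have hF3' : F3 ≤ IntermediateField.normalClosure K F2 (AlgebraicClosure K) :=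
    ((le_sup_right.trans le_sup_right).trans le_sup_right).trans hle
  refine ⟨IntermediateField.normalClosure K F2 (AlgebraicClosure K), inferInstance, inferInstance,
    ⟨fun σ hσ => hs σ (fun x hx => hσ x (hle ((le_sup_left : F0 ≤ F2) hx))),
    fun σ hσ => hs3 σ (fun x hx => hσ x (hF3' hx)), fun i => hF1'
      (IntermediateField.subset_adjoin K _ (Or.inl ⟨i, rfl⟩)), fun b c => hF1'
      (IntermediateField.subset_adjoin K _ (Or.inr (Or.inl ⟨(b, c), rfl⟩)))⟩,
    (le_sup_left.trans le_sup_right).trans hle, fun b c => hF1'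
      (IntermediateField.subset_adjoin K _ (Or.inr (Or.inr ⟨(b, c), rfl⟩)))⟩

include hX hy ho in
/-- The images of the points `(u v, P + m R)`, with a point `v` of the twisted torus, are rational, if
they are outside `W`. -/
theorem ratT [Fintype G] (v : TpB K s)
    (hv : ∀ (φ : GalK K) (g : G), Moves S g u P (twT D φ u) (twA D φ P) →
      cjT T φ v = mon (S.linT g) v) (m : Fin r → ℤ)
    (hd : DefT X.Fam (u * v) (fun b => P b + m b • RT S P b))
    (ho' : ∀ x, ImgT X.Fam (u * v) (fun b => P b + m b • RT S P b) x → Off X.eqW x) :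
    ∃ y' : Fin N → K, Normed y' ∧ (∀ g ∈ X.eqX, eval y' g = 0) ∧
      ImgT X.Fam (u * v) (fun b => P b + m b • RT S P b) (up y') := by
  obtain ⟨x, ⟨hx0, hxe⟩, hx⟩ := X.total (u * v) (fun b => P b + m b • RT S P b) hd
  obtain ⟨t, x1, ht, hx1, rfl⟩ := exists_normed hx0
  have hxe1 : ∀ g ∈ X.eqX, aeval x1 g = 0 := by
    intro g hg
    obtain ⟨d, hd⟩ := X.homX g hg
    have h1 := hxe g hg
    rw [aeval_smul' hd] at h1
    exact (mul_eq_zero.1 h1).resolve_left (pow_ne_zero _ ht)
  have hv1 : ImgT X.Fam (u * v) (fun b => P b + m b • RT S P b) x1 := by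
    have := ValT.smul hx (inv_ne_zero ht)
    rwa [inv_smul_smul₀ ht] at this
  have hfix : ∀ φ : AlgebraicClosure K ≃ₐ[K] AlgebraicClosure K, ∀ c, φ (x1 c) = x1 c := by
    intro φ c
    obtain ⟨g, hg⟩ := conj_ex hX hy ho φ
    have h4 : ImgT X.Fam (twT D φ (u * v))
        (twA D φ (fun b => P b + m b • RT S P b)) x1 := by
      refine ((hX _ _ _ hv1 (ho' _ hv1)).1 _ _).2 ⟨g, ?_, fun b => ?_⟩
      · have h6 : cjT T φ u * D.a φ = mon (S.linT g) u * S.trT g := hg.1
        change cjT T φ (u * v) * D.a φ = mon (S.linT g) (u * v) * S.trT g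
        rw [cjT_mul, hv φ g hg, mon_mul]
        calc cjT T φ u * mon (S.linT g) v * D.a φ = (cjT T φ u * D.a φ) * mon (S.linT g) v := by
              rw [mul_assoc, mul_comm (mon (S.linT g) v), ← mul_assoc]
          _ = mon (S.linT g) u * mon (S.linT g) v * S.trT g := by
              rw [h6, mul_assoc, mul_comm (S.trT g), ← mul_assoc]
      · have hg' : ∀ b, sg (A b) φ (P b) + D.c φ b = ln S.act g b (P b) + S.act.tr g b :=
          fun b => hg.2 b
        have h7 := hg' b
        change sg (A b) φ (P b + m b • RT S P b) + D.c φ b =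
          ln S.act g b (P b + m b • RT S P b) + S.act.tr g b
        have h8 : sg (A b) φ (P b) = ln S.act g b (P b) + S.act.tr g b - D.c φ b := by
          rw [← h7, add_sub_cancel_right]
        rw [map_add, map_zsmul, sg_RT S hg', h8, map_add, map_zsmul]
        abel
    have h5 := X.gal φ _ _ _ hv1
    obtain ⟨t', -, ht'⟩ := ValT.unique h4 h5
    have h6 : mapV φ.toAlgHom x1 = x1 := normed_unique (Normed.mapV _ hx1) hx1 ht'
    exact congrFun h6 c
  have hgal : IsGalois K (AlgebraicClosure K) := inferInstance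
  have hmem : ∀ c, ∃ z : K, algebraMap K (AlgebraicClosure K) z = x1 c := by
    intro c
    have := (InfiniteGalois.mem_range_algebraMap_iff_fixed (k := K) (K := AlgebraicClosure K)
      (x1 c)).2 (fun φ => hfix φ c)
    exact this
  choose y' hy' using hmem
  have hup : up y' = x1 := funext hy'
  refine ⟨y', ?_, fun g hg => ?_, ?_⟩
  · obtain ⟨i, hi, hj⟩ := hx1
    refine ⟨i, ?_, fun j hji => ?_⟩
    · apply (algebraMap K (AlgebraicClosure K)).injective
      rw [hy', hi, map_one]
    · apply (algebraMap K (AlgebraicClosure K)).injective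
      rw [hy', hj j hji, map_zero]
  · rw [← eval_up_iff, hup]
    exact hxe1 g hg
  · rw [hup]
    exact hv1

end rat

end Pool.Agent.K1H82.KT
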